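import Mathlib

/-! The curves `y ^ 2 = x ^ 3 + s`: coordinates of sums of points. -/

set_option autoImplicit false

namespace Pool.Agent.TH146

open WeierstrassCurve

/-- the curve `y ^ 2 = x ^ 3 + s` -/
def Wc {M : Type*} [Field M] (s : M) : WeierstrassCurve.Affine M :=
  { a₁ := 0, a₂ := 0, a₃ := 0, a₄ := 0, a₆ := s }

/-- the point `A` has affine coordinates `x, y` -/
def Has {M : Type*} [Field M] {s : M} (A : (Wc s).Point) (x y : M) : Prop :=
  ∃ h, A = Affine.Point.some x y h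

variable {M : Type*} [Field M] {s : M}

theorem ns_iff (x y : M) : (Wc s).Nonsingular x y ↔
    y ^ 2 = x ^ 3 + s ∧ (3 * x ^ 2 ≠ 0 ∨ 2 * y ≠ 0) := by
  rw [Affine.nonsingular_iff, Affine.equation_iff]
  simp only [Wc, zero_mul, add_zero, sub_zero, mul_zero]
  constructor
  · rintro ⟨h1, h2⟩
    refine ⟨h1, ?_⟩
    rcases h2 with h | h
    · exact Or.inl fun h0 => h h0.symm
    · refine Or.inr fun h0 => h ?_
      linear_combination h0
  · rintro ⟨h1, h2⟩
    refine ⟨h1, ?_⟩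
    rcases h2 with h | h
    · exact Or.inl fun h0 => h h0.symm
    · refine Or.inr fun h0 => h ?_
      linear_combination h0

theorem Has.eqn {A : (Wc s).Point} {x y : M} (h : Has A x y) : y ^ 2 = x ^ 3 + s := by
  obtain ⟨h, -⟩ := h
  exact ((ns_iff x y).1 h).1

theorem Has.uniq {A : (Wc s).Point} {x y x' y' : M} (h : Has A x y) (h' : Has A x' y') :
    x = x' ∧ y = y' := by
  obtain ⟨h, rfl⟩ := h
  obtain ⟨h', e⟩ := h'
  simpa using e

theorem Has.neg {A : (Wc s).Point} {x y : M} (h : Has A x y) : Has (-A) x (-y) := by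
  obtain ⟨h, rfl⟩ := h
  rw [Affine.Point.neg_some]
  have : (Wc s).negY x y = -y := by simp [Affine.negY, Wc]
  refine ⟨?_, ?_⟩
  · rw [← this]
    exact (Affine.nonsingular_neg x y).2 h
  · simp [Wc]

theorem Has.add [DecidableEq M] {A B : (Wc s).Point} {x₁ y₁ x₂ y₂ : M} (hA : Has A x₁ y₁)
    (hB : Has B x₂ y₂) (hx : x₁ ≠ x₂) (l X Y : M) (hl : l = (y₁ - y₂) / (x₁ - x₂))
    (hX : X = l ^ 2 - x₁ - x₂) (hY : Y = -(l * (X - x₁) + y₁)) : Has (A + B) X Y := by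
  obtain ⟨h1, rfl⟩ := hA
  obtain ⟨h2, rfl⟩ := hB
  rw [Affine.Point.add_of_X_ne hx]
  have e1 : (Wc s).slope x₁ x₂ y₁ y₂ = l := by
    rw [Affine.slope_of_X_ne hx, hl]
  have e2 : (Wc s).addX x₁ x₂ l = X := by
    rw [hX]; simp [Affine.addX, Wc]
  have e3 : (Wc s).addY x₁ x₂ y₁ l = Y := by
    rw [Affine.addY, Affine.negAddY, e2, hY]
    simp [Affine.negY, Wc]
  subst e1
  subst e2
  subst e3
  exact ⟨_, rfl⟩

theorem Has.dbl [DecidableEq M] {A : (Wc s).Point} {x y : M} (hA : Has A x y)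
    (hy : 2 * y ≠ 0) (l X Y : M) (hl : l = 3 * x ^ 2 / (2 * y))
    (hX : X = l ^ 2 - x - x) (hY : Y = -(l * (X - x) + y)) : Has (A + A) X Y := by
  obtain ⟨h1, rfl⟩ := hA
  have hneg : (Wc s).negY x y = -y := by simp [Affine.negY, Wc]
  have hy' : y ≠ (Wc s).negY x y := by
    rw [hneg]
    intro h
    apply hy
    linear_combination h
  rw [Affine.Point.add_self_of_Y_ne hy']
  have e1 : (Wc s).slope x x y y = l := by
    rw [Affine.slope_of_Y_ne rfl hy', hneg, hl]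
    simp only [Wc, mul_zero, zero_mul, add_zero, sub_zero]
    congr 1
    ring
  have e2 : (Wc s).addX x x l = X := by
    rw [hX]; simp [Affine.addX, Wc]
  have e3 : (Wc s).addY x x y l = Y := by
    rw [Affine.addY, Affine.negAddY, e2, hY]
    simp [Affine.negY, Wc]
  subst e1
  subst e2
  subst e3
  exact ⟨_, rfl⟩

/-- the general shape of a sum -/
theorem add_cases [DecidableEq M] (A B : (Wc s).Point) : A + B = 0 ∨ (A = 0 ∧ A + B = B) ∨
    (B = 0 ∧ A + B = A) ∨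
    ∃ x₁ y₁ x₂ y₂, Has A x₁ y₁ ∧ Has B x₂ y₂ ∧
      ((x₁ ≠ x₂ ∧ ∀ l X Y, l = (y₁ - y₂) / (x₁ - x₂) → X = l ^ 2 - x₁ - x₂ →
        Y = -(l * (X - x₁) + y₁) → Has (A + B) X Y) ∨
      (A = B ∧ 2 * y₁ ≠ 0 ∧ ∀ l X Y, l = 3 * x₁ ^ 2 / (2 * y₁) → X = l ^ 2 - x₁ - x₁ →
        Y = -(l * (X - x₁) + y₁) → Has (A + B) X Y)) := by
  rcases hA : A with _ | ⟨x₁, y₁, h₁⟩
  · right; left
    exact ⟨rfl, zero_add _⟩
  rcases hB : B with _ | ⟨x₂, y₂, h₂⟩
  · right; right; left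
    exact ⟨rfl, add_zero _⟩
  by_cases hx : x₁ = x₂
  · subst hx
    by_cases hy : y₁ = (Wc s).negY x₁ y₂
    · left
      exact Affine.Point.add_of_Y_eq rfl hy
    · right; right; right
      have hneg : (Wc s).negY x₁ y₂ = -y₂ := by simp [Affine.negY, Wc]
      rw [hneg] at hy
      have e1 := ((ns_iff x₁ y₁).1 h₁).1
      have e2 := ((ns_iff x₁ y₂).1 h₂).1
      have e3 : (y₁ - y₂) * (y₁ + y₂) = 0 := by linear_combination e1 - e2
      have e4 : y₁ = y₂ := by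
        rcases mul_eq_zero.1 e3 with h | h
        · exact sub_eq_zero.1 h
        · exact absurd (by linear_combination h) hy
      subst e4
      refine ⟨x₁, y₁, x₁, y₁, ⟨h₁, rfl⟩, ⟨h₁, rfl⟩, Or.inr ⟨rfl, ?_, ?_⟩⟩
      · intro h
        apply hy
        linear_combination h
      · intro l X Y hl hX hY
        refine Has.dbl ⟨h₁, rfl⟩ ?_ l X Y hl hX hY
        intro h
        apply hy
        linear_combination h
  · right; right; right
    refine ⟨x₁, y₁, x₂, y₂, ⟨h₁, rfl⟩, ⟨h₂, rfl⟩, Or.inl ⟨hx, ?_⟩⟩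
    intro l X Y hl hX hY
    exact Has.add ⟨h₁, rfl⟩ ⟨h₂, rfl⟩ hx l X Y hl hX hY

end Pool.Agent.TH146
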