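import Mathlib

/-! If the entries of a tuple of polynomials have no common nonunit divisor then, for each variable,
some nonzero polynomial free of that variable lies in the ideal which they generate. -/

set_option autoImplicit false

namespace Pool.Agent.TH146

open Polynomial in
theorem elim_uni {R : Type*} [CommRing R] [IsDomain R] [UniqueFactorizationMonoid R]
    {ι : Type*} [Fintype ι]
    (G : ι → R[X]) (hG : ∀ q, (∀ i, q ∣ G i) → IsUnit q) :
    ∃ (u : ι → R[X]) (r : R), r ≠ 0 ∧ ∑ i, u i * G i = C r := by
  classical
  obtain ⟨inst⟩ : Nonempty (NormalizedGCDMonoid R) := inferInstance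
  let Q := FractionRing R
  let I : Ideal Q[X] := Ideal.span (Set.range fun i => (G i).map (algebraMap R Q))
  obtain ⟨h, hI⟩ : ∃ h, I = Ideal.span {h} := (IsPrincipalIdealRing.principal I).principal
  have hdvd : ∀ i, h ∣ (G i).map (algebraMap R Q) := by
    intro i
    have : (G i).map (algebraMap R Q) ∈ I := Ideal.subset_span ⟨i, rfl⟩
    rw [hI] at this
    exact Ideal.mem_span_singleton.1 this
  have hh0 : h ≠ 0 := by
    rintro rfl
    have h0 : ∀ i, G i = 0 := by
      intro i
      have := hdvd i
      rw [zero_dvd_iff] at this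
      exact (Polynomial.map_eq_zero_iff (IsFractionRing.injective R Q)).1 this
    have := hG 0 (fun i => by rw [h0 i])
    exact not_isUnit_zero this
  -- a primitive representative
  obtain ⟨c, hc, hmap⟩ := IsLocalization.integerNormalization_spec (nonZeroDivisors R) h
  set h1 := IsLocalization.integerNormalization (nonZeroDivisors R) h with hh1
  have hc0 : c ≠ 0 := mem_nonZeroDivisors_iff_ne_zero.1 hc
  have hh10 : h1 ≠ 0 := by
    intro h0
    rw [h0, Polynomial.map_zero] at hmap
    have := smul_eq_zero.1 hmap.symm
    rcases this with h | h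
    · exact hc0 h
    · exact hh0 h
  have hprim : h1.primPart.IsPrimitive := h1.isPrimitive_primPart
  have hmap2 : h1.map (algebraMap R Q) =
      C (algebraMap R Q h1.content) * h1.primPart.map (algebraMap R Q) := by
    conv_lhs => rw [h1.eq_C_content_mul_primPart]
    rw [Polynomial.map_mul, Polynomial.map_C]
  have hpd : h1.primPart.map (algebraMap R Q) ∣ h := by
    have hcont : algebraMap R Q h1.content ≠ 0 := by
      intro h0
      have := (IsFractionRing.injective R Q) (h0.trans (map_zero _).symm)
      rw [content_eq_zero_iff] at this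
      exact hh10 this
    have hcQ : algebraMap R Q c ≠ 0 := by
      intro h0
      exact hc0 ((IsFractionRing.injective R Q) (h0.trans (map_zero _).symm))
    refine ⟨C ((algebraMap R Q c)⁻¹ * algebraMap R Q h1.content), ?_⟩
    have e1 : h = C ((algebraMap R Q c)⁻¹) * h1.map (algebraMap R Q) := by
      rw [hmap, Algebra.smul_def, ← mul_assoc]
      rw [show (algebraMap R Q[X]) c = C (algebraMap R Q c) from rfl, ← C_mul,
        inv_mul_cancel₀ hcQ, C_1, one_mul]
    rw [e1, hmap2, C_mul]
    ring
  have hunit : IsUnit h1.primPart := by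
    apply hG
    intro i
    exact hprim.dvd_of_fraction_map_dvd_fraction_map (hpd.trans (hdvd i))
  have hunit2 : IsUnit h := by
    have e1 : IsUnit (h1.map (algebraMap R Q)) := by
      rw [hmap2]
      have hcont : algebraMap R Q h1.content ≠ 0 := by
        intro h0
        have := (IsFractionRing.injective R Q) (h0.trans (map_zero _).symm)
        rw [content_eq_zero_iff] at this
        exact hh10 this
      exact (isUnit_C.2 (isUnit_iff_ne_zero.2 hcont)).mul
        (hunit.map (mapRingHom (algebraMap R Q)))
    rw [hmap, Algebra.smul_def] at e1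
    exact isUnit_of_mul_isUnit_right e1
  have htop : I = ⊤ := by
    rw [hI]
    exact Ideal.span_singleton_eq_top.2 hunit2
  have h1mem : (1 : Q[X]) ∈ Ideal.span (Set.range fun i => (G i).map (algebraMap R Q)) := by
    have : (1 : Q[X]) ∈ I := by rw [htop]; trivial
    exact this
  obtain ⟨a, ha⟩ := (Ideal.mem_span_range_iff_exists_fun).1 h1mem
  -- clear denominators
  have hex : ∀ i, ∃ (b : R) (v : R[X]), b ≠ 0 ∧
      v.map (algebraMap R Q) = C (algebraMap R Q b) * a i := by
    intro i
    obtain ⟨b, hb, hv⟩ := IsLocalization.integerNormalization_spec (nonZeroDivisors R) (a i)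
    refine ⟨b, IsLocalization.integerNormalization (nonZeroDivisors R) (a i),
      mem_nonZeroDivisors_iff_ne_zero.1 hb, ?_⟩
    rw [hv, Algebra.smul_def]
    rfl
  choose b v hb hv using hex
  refine ⟨fun i => C (∏ j ∈ Finset.univ.erase i, b j) * v i, ∏ j, b j, ?_, ?_⟩
  · exact Finset.prod_ne_zero_iff.2 fun i _ => hb i
  · apply Polynomial.map_injective (algebraMap R Q) (IsFractionRing.injective R Q)
    have e1 : Polynomial.map (algebraMap R Q)
        (∑ i, (C (∏ j ∈ Finset.univ.erase i, b j) * v i) * G i) =
        ∑ i, Polynomial.map (algebraMap R Q)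
          ((C (∏ j ∈ Finset.univ.erase i, b j) * v i) * G i) := by
      rw [← Polynomial.coe_mapRingHom, map_sum]
    rw [e1, Polynomial.map_C]
    have e2 : ∀ i, Polynomial.map (algebraMap R Q)
        ((C (∏ j ∈ Finset.univ.erase i, b j) * v i) * G i) =
        C (algebraMap R Q (∏ j, b j)) * (a i * (G i).map (algebraMap R Q)) := by
      intro i
      rw [Polynomial.map_mul, Polynomial.map_mul, Polynomial.map_C, hv i,
        ← Finset.mul_prod_erase Finset.univ b (Finset.mem_univ i), map_mul, C_mul]
      ring
    rw [Finset.sum_congr rfl fun i _ => e2 i, ← Finset.mul_sum, ha, mul_one]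

open MvPolynomial in
theorem elim {K : Type*} [Field K] {N : ℕ} (G : Fin (N+1) → MvPolynomial (Fin (N+1)) K)
    (hG : ∀ q, (∀ i, q ∣ G i) → IsUnit q) (j : Fin (N+1)) :
    ∃ (U : Fin (N+1) → MvPolynomial (Fin (N+1)) K) (ρ : MvPolynomial (Fin (N+1)) K),
      ρ ≠ 0 ∧ degreeOf j ρ = 0 ∧ ∑ i, U i * G i = ρ := by
  classical
  let σ : Fin (N+1) ≃ Fin (N+1) := Equiv.swap 0 j
  let e : MvPolynomial (Fin (N+1)) K ≃ₐ[K] Polynomial (MvPolynomial (Fin N) K) :=
    (renameEquiv K σ).trans (finSuccEquiv K N)
  obtain ⟨u, r, hr, hu⟩ := elim_uni (fun i => e (G i)) (fun q hq => by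
    have h1 : IsUnit (e.symm q) := by
      apply hG
      intro i
      have := map_dvd e.symm (hq i)
      simpa using this
    have h2 := h1.map e
    simpa using h2)
  refine ⟨fun i => e.symm (u i), e.symm (Polynomial.C r), ?_, ?_, ?_⟩
  · intro h
    have : Polynomial.C r = 0 := by
      have h2 := congrArg e h
      simpa using h2
    exact hr (Polynomial.C_eq_zero.1 this)
  · have h1 : degreeOf (σ j) (rename σ (e.symm (Polynomial.C r))) =
        degreeOf j (e.symm (Polynomial.C r)) := degreeOf_rename_of_injective σ.injective j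
    rw [← h1]
    have h2 : σ j = 0 := Equiv.swap_apply_right 0 j
    rw [h2, ← natDegree_finSuccEquiv]
    have h3 : finSuccEquiv K N (rename σ (e.symm (Polynomial.C r))) = Polynomial.C r := by
      have : e (e.symm (Polynomial.C r)) = Polynomial.C r := e.apply_symm_apply _
      exact this
    rw [h3, Polynomial.natDegree_C]
  · apply e.injective
    rw [map_sum, e.apply_symm_apply, ← hu]
    apply Finset.sum_congr rfl
    intro i _
    rw [map_mul, e.apply_symm_apply]

end Pool.Agent.TH146
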