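import Mathlib
import Pool.Agent.TH146.Elim
import Pool.Agent.Helper993.CS.Z2

/-! Specialisation of the reduced degree of the iterates of a family of rational maps. -/

set_option autoImplicit false

namespace Pool.Agent.TH146

open MvPolynomial Pool.Agent.Helper993.CS

universe u

/-- iterates of a tuple of forms over a commutative ring -/
noncomputable def it {R : Type*} [CommRing R] {N : ℕ}
    (f : Fin (N+1) → MvPolynomial (Fin (N+1)) R) : ℕ → Fin (N+1) → MvPolynomial (Fin (N+1)) R
  | 0 => X
  | n+1 => fun i => bind₁ (it f n) (f i)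

theorem it_eq_iter {K : Type u} [Field K] {N : ℕ} (f : Fin (N+1) → MvPolynomial (Fin (N+1)) K)
    (n : ℕ) : it f n = iter f n := by
  induction n with
  | zero => rfl
  | succ n ih => funext i; simp only [it, iter, ih]

theorem map_it {R S : Type*} [CommRing R] [CommRing S] {N : ℕ} (φ : R →+* S)
    (f : Fin (N+1) → MvPolynomial (Fin (N+1)) R) (n : ℕ) (i : Fin (N+1)) :
    map φ (it f n i) = it (fun i => map φ (f i)) n i := by
  induction n generalizing i with
  | zero => simp [it]
  | succ n ih =>
    simp only [it]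
    rw [map_bind₁]
    congr 2
    funext j
    exact ih j

/-- exponent by which a constant factor enters the iterates -/
def ee (d : ℕ) : ℕ → ℕ
  | 0 => 0
  | n+1 => 1 + ee d n * d

theorem it_C_mul {K : Type u} [Field K] {N : ℕ} (f : Fin (N+1) → MvPolynomial (Fin (N+1)) K)
    {d : ℕ} (hf : ∀ i, (f i).IsHomogeneous d) (b : K) (n : ℕ) (i : Fin (N+1)) :
    it (fun i => C b * f i) n i = C (b ^ ee d n) * it f n i := by
  induction n generalizing i with
  | zero => simp [it, ee]
  | succ n ih =>
    simp only [it, ee]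
    rw [map_mul, bind₁_C_right]
    have h1 : it (fun i => C b * f i) n = fun i => C (b ^ ee d n) * it f n i := funext ih
    rw [h1]
    have h2 := ff_scale (A := MvPolynomial (Fin (N+1)) K) (hf i) (C (b ^ ee d n)) (it f n)
    have h3 : bind₁ (fun i => C (b ^ ee d n) * it f n i) (f i) =
        C (b ^ ee d n) ^ d * bind₁ (it f n) (f i) := h2
    rw [h3, ← C_pow, ← mul_assoc, ← C_mul, pow_add, pow_one, pow_mul]

theorem clear {A L : Type*} [CommRing A] [IsDomain A] [Field L] [Algebra A L]
    [IsFractionRing A L] {σ ι : Type*} [Fintype ι] (p : ι → MvPolynomial σ L) :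
    ∃ (b : A) (q : ι → MvPolynomial σ A), b ≠ 0 ∧
      ∀ i, map (algebraMap A L) (q i) = C (algebraMap A L b) * p i := by
  classical
  have hone : ∀ p : MvPolynomial σ L, ∃ (b : A) (q : MvPolynomial σ A), b ≠ 0 ∧
      map (algebraMap A L) q = C (algebraMap A L b) * p := by
    intro p
    obtain ⟨b, hb⟩ := IsLocalization.exist_integer_multiples (nonZeroDivisors A) p.support
      (fun m => coeff m p)
    have hb' : ∀ m, ∃ a : A, algebraMap A L a = algebraMap A L b * coeff m p := by
      intro m
      by_cases hm : m ∈ p.support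
      · obtain ⟨a, ha⟩ := hb m hm
        refine ⟨a, ?_⟩
        rw [ha, Algebra.smul_def]
      · exact ⟨0, by rw [notMem_support_iff.1 hm, mul_zero, map_zero]⟩
    choose a ha using hb'
    refine ⟨b, ∑ m ∈ p.support, monomial m (a m), nonZeroDivisors.coe_ne_zero b, ?_⟩
    rw [map_sum]
    conv_rhs => rw [p.as_sum, Finset.mul_sum]
    refine Finset.sum_congr rfl fun m _ => ?_
    rw [map_monomial, ha m, C_mul_monomial]
  choose b q hb hq using fun i => hone (p i)
  refine ⟨∏ i, b i, fun i => C (∏ j ∈ Finset.univ.erase i, b j) * q i,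
    Finset.prod_ne_zero_iff.2 fun i _ => hb i, fun i => ?_⟩
  rw [map_mul, map_C, hq i, ← Finset.mul_prod_erase Finset.univ b (Finset.mem_univ i),
    map_mul, C_mul]
  ring

theorem aux_field {L : Type*} [Field L] (x y z : L) (hx : x ≠ 0) :
    x * (y * (z / x)) = y * z := by
  field_simp

/-- `G` is the tuple obtained from `F` by evaluating at `t` the coefficients, which are all
defined at `t`. -/
def Spec {κ : Type u} [Field κ] {k N : ℕ}
    (F : Fin (N+1) → MvPolynomial (Fin (N+1)) (FractionRing (MvPolynomial (Fin k) κ)))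
    (t : Fin k → κ) (G : Fin (N+1) → MvPolynomial (Fin (N+1)) κ) : Prop :=
  ∀ i m, ∃ a b : MvPolynomial (Fin k) κ, eval t b ≠ 0 ∧
    coeff m (F i) = algebraMap _ (FractionRing (MvPolynomial (Fin k) κ)) a /
      algebraMap _ (FractionRing (MvPolynomial (Fin k) κ)) b ∧
    coeff m (G i) = eval t a / eval t b

theorem generic_deg {κ : Type u} [Field κ] {k N : ℕ}
    (f : Fin (N+1) → MvPolynomial (Fin (N+1)) (FractionRing (MvPolynomial (Fin k) κ)))
    {d : ℕ} (hf : ∀ i, (f i).IsHomogeneous d) (n D : ℕ) (hD : RedDeg (iter f n) D) :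
    ∃ H : MvPolynomial (Fin k) κ, H ≠ 0 ∧ ∀ t : Fin k → κ, eval t H ≠ 0 →
      ∀ G : Fin (N+1) → MvPolynomial (Fin (N+1)) κ, (∀ i, (G i).IsHomogeneous d) →
        Spec f t G → RedDeg (iter G n) D := by
  classical
  let A := MvPolynomial (Fin k) κ
  let L := FractionRing A
  have hinj : Function.Injective (algebraMap A L) := IsFractionRing.injective A L
  have hinjM : Function.Injective
      (map (algebraMap A L) : MvPolynomial (Fin (N+1)) A →+* MvPolynomial (Fin (N+1)) L) :=
    map_injective _ hinj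
  obtain ⟨b, F, hb, hF⟩ := clear (A := A) (L := L) f
  obtain ⟨H0, G0, hH0, hfac, hG0, hred⟩ := hD
  choose U ρ hρ0 hρdeg hU using elim G0 hred
  obtain ⟨β0, H', hβ0, hH'⟩ := clear (A := A) (L := L) (fun _ : Unit => H0)
  obtain ⟨βg, G', hβg, hG'⟩ := clear (A := A) (L := L) G0
  obtain ⟨βU, U', hβU, hU'⟩ := clear (A := A) (L := L)
    (fun p : Fin (N+1) × Fin (N+1) => U p.1 p.2)
  obtain ⟨βρ, ρ', hβρ, hρ'⟩ := clear (A := A) (L := L) ρ
  have hbL : algebraMap A L b ≠ 0 := fun h => hb (hinj (h.trans (map_zero _).symm))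
  have ne_of : ∀ (β : A) (p : MvPolynomial (Fin (N+1)) L) (q : MvPolynomial (Fin (N+1)) A),
      β ≠ 0 → p ≠ 0 → map (algebraMap A L) q = C (algebraMap A L β) * p → q ≠ 0 := by
    intro β p q hβ hp h hq
    rw [hq, map_zero] at h
    have h2 : algebraMap A L β ≠ 0 := fun h => hβ (hinj (h.trans (map_zero _).symm))
    exact (mul_ne_zero (fun h3 => h2 (C_eq_zero.1 h3)) hp) h.symm
  have hH'0 : H' () ≠ 0 := ne_of _ _ _ hβ0 hH0 (hH' ())
  have hρ'0 : ∀ j, ρ' j ≠ 0 := fun j => ne_of _ _ _ hβρ (hρ0 j) (hρ' j)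
  -- identities over `A`
  have id1 : ∀ i, C (β0 * βg) * it F n i = C (b ^ ee d n) * (H' () * G' i) := by
    intro i
    apply hinjM
    have e1 : map (algebraMap A L) (C (β0 * βg) * it F n i) =
        C (algebraMap A L β0) * C (algebraMap A L βg) * map (algebraMap A L) (it F n i) := by
      rw [map_mul, map_C, map_mul, C_mul]
    have e2 : map (algebraMap A L) (C (b ^ ee d n) * (H' () * G' i)) =
        C (algebraMap A L b ^ ee d n) *
          (map (algebraMap A L) (H' ()) * map (algebraMap A L) (G' i)) := by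
      rw [map_mul, map_C, map_mul, map_pow]
    have h1 : (fun i => map (algebraMap A L) (F i)) = fun i => C (algebraMap A L b) * f i :=
      funext hF
    rw [e1, e2, map_it, hH' (), hG' i, h1, it_C_mul f hf, it_eq_iter, hfac i]
    ring
  have id2 : ∀ j, C βρ * ∑ i, U' (j, i) * G' i = C (βU * βg) * ρ' j := by
    intro j
    apply hinjM
    rw [map_mul, map_mul, map_C, map_C, map_sum, hρ' j, ← hU j]
    have h1 : ∀ i, map (algebraMap A L) (U' (j, i) * G' i) =
        C (algebraMap A L (βU * βg)) * (U j i * G0 i) := by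
      intro i
      rw [map_mul, hU' (j, i), hG' i, map_mul, C_mul]
      ring
    rw [Finset.sum_congr rfl fun i _ => h1 i, ← Finset.mul_sum]
    ring
  obtain ⟨m0, hm0⟩ := ne_zero_iff.1 hH'0
  choose mρ hmρ using fun j => ne_zero_iff.1 (hρ'0 j)
  refine ⟨b * β0 * βg * βU * βρ * coeff m0 (H' ()) * ∏ j, coeff (mρ j) (ρ' j), ?_, ?_⟩
  · refine mul_ne_zero (mul_ne_zero (mul_ne_zero (mul_ne_zero (mul_ne_zero (mul_ne_zero hb hβ0)
      hβg) hβU) hβρ) hm0) ?_
    exact Finset.prod_ne_zero_iff.2 fun j _ => hmρ j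
  intro t ht G hGd hspec
  simp only [map_mul, map_prod, ne_eq, mul_eq_zero, not_or] at ht
  obtain ⟨⟨⟨⟨⟨⟨tb, tβ0⟩, tβg⟩, tβU⟩, tβρ⟩, tH⟩, tρ⟩ := ht
  rw [Finset.prod_eq_zero_iff] at tρ
  push Not at tρ
  -- the specialisation of `F`
  have hFt : (fun i => map (eval t) (F i)) = fun i => C (eval t b) * G i := by
    funext i
    ext m
    rw [coeff_map, coeff_C_mul]
    obtain ⟨a, b', hb', h1, h2⟩ := hspec i m
    have h3 : algebraMap A L (coeff m (F i)) = algebraMap A L b * coeff m (f i) := by
      rw [← coeff_map, hF i, coeff_C_mul]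
    have hb'0 : b' ≠ 0 := by
      rintro rfl
      exact hb' (map_zero _)
    have hb'L : algebraMap A L b' ≠ 0 := fun h => hb'0 (hinj (h.trans (map_zero _).symm))
    have h4 : b' * coeff m (F i) = b * a := by
      apply hinj
      rw [map_mul, map_mul, h3, h1]
      exact aux_field _ _ _ hb'L
    have h5 := congrArg (eval t) h4
    rw [map_mul, map_mul] at h5
    rw [h2]
    field_simp
    linear_combination h5
  have id1t : ∀ i, C (eval t β0 * eval t βg) * (C ((eval t b) ^ ee d n) * it G n i) =
      C ((eval t b) ^ ee d n) * (map (eval t) (H' ()) * map (eval t) (G' i)) := by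
    intro i
    have h := congrArg (map (eval t)) (id1 i)
    have e1 : map (eval t) (C (β0 * βg) * it F n i) =
        C (eval t β0 * eval t βg) * map (eval t) (it F n i) := by
      rw [map_mul, map_C, map_mul]
    have e2 : map (eval t) (C (b ^ ee d n) * (H' () * G' i)) =
        C (eval t b ^ ee d n) * (map (eval t) (H' ()) * map (eval t) (G' i)) := by
      rw [map_mul, map_C, map_mul, map_pow]
    rw [e1, e2, map_it, hFt, it_C_mul G hGd] at h
    exact h
  have id2t : ∀ j, C (eval t βρ) * ∑ i, map (eval t) (U' (j, i)) * map (eval t) (G' i) =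
      C (eval t βU * eval t βg) * map (eval t) (ρ' j) := by
    intro j
    have h := congrArg (map (eval t)) (id2 j)
    rw [map_mul, map_mul, map_C, map_C, map_sum, map_mul] at h
    rw [← h]
    congr 1
    exact Finset.sum_congr rfl fun i _ => (map_mul _ _ _).symm
  have hHt : map (eval t) (H' ()) ≠ 0 := by
    intro h
    apply tH
    rw [← coeff_map, h, coeff_zero]
  have hρt : ∀ j, map (eval t) (ρ' j) ≠ 0 := by
    intro j h
    apply tρ j (Finset.mem_univ j)
    rw [← coeff_map, h, coeff_zero]
  refine ⟨C ((eval t β0 * eval t βg)⁻¹) * map (eval t) (H' ()), fun i => map (eval t) (G' i),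
    ?_, ?_, ?_, ?_⟩
  · exact mul_ne_zero (fun h => (inv_ne_zero (mul_ne_zero tβ0 tβg)) (C_eq_zero.1 h)) hHt
  · intro i
    rw [← it_eq_iter]
    have h1 : (C ((eval t b) ^ ee d n) : MvPolynomial (Fin (N+1)) κ) ≠ 0 :=
      fun h => (pow_ne_zero _ tb) (C_eq_zero.1 h)
    have h2 : C (eval t β0 * eval t βg) * it G n i =
        map (eval t) (H' ()) * map (eval t) (G' i) := by
      apply mul_left_cancel₀ h1
      rw [← id1t i]
      ring
    have h3 : (C ((eval t β0 * eval t βg)⁻¹) : MvPolynomial (Fin (N+1)) κ) *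
        C (eval t β0 * eval t βg) = 1 := by
      rw [← C_mul, inv_mul_cancel₀ (mul_ne_zero tβ0 tβg), C_1]
    calc it G n i = (C ((eval t β0 * eval t βg)⁻¹) * C (eval t β0 * eval t βg)) * it G n i := by
          rw [h3, one_mul]
      _ = C ((eval t β0 * eval t βg)⁻¹) * (C (eval t β0 * eval t βg) * it G n i) := by ring
      _ = _ := by rw [h2]; ring
  · intro i
    have h1 : (map (algebraMap A L) (G' i)).IsHomogeneous D := by
      rw [hG' i]
      exact (hG0 i).C_mul _
    exact (h1.of_map hinj).map _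
  · intro q hq
    have hq0 : q ≠ 0 := by
      rintro rfl
      have h1 := id2t 0
      have h2 : ∀ i, map (eval t) (G' i) = 0 := fun i => zero_dvd_iff.1 (hq i)
      simp only [h2, mul_zero, Finset.sum_const_zero] at h1
      exact (mul_ne_zero (fun h => (mul_ne_zero tβU tβg) (C_eq_zero.1 h)) (hρt 0)) h1.symm
    have hdeg : ∀ j, degreeOf j q = 0 := by
      intro j
      have h1 : q ∣ C (eval t βU * eval t βg) * map (eval t) (ρ' j) := by
        rw [← id2t j]
        exact Dvd.dvd.mul_left (Finset.dvd_sum fun i _ => Dvd.dvd.mul_left (hq i) _) _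
      obtain ⟨s, hs⟩ := h1
      have h0 : C (eval t βU * eval t βg) * map (eval t) (ρ' j) ≠ 0 :=
        mul_ne_zero (fun h => (mul_ne_zero tβU tβg) (C_eq_zero.1 h)) (hρt j)
      have hs0 : s ≠ 0 := by
        rintro rfl
        rw [mul_zero] at hs
        exact h0 hs
      have h2 : degreeOf j (C (eval t βU * eval t βg) * map (eval t) (ρ' j)) =
          degreeOf j q + degreeOf j s := by rw [hs, degreeOf_mul_eq hq0 hs0]
      have h3 : degreeOf j (C (eval t βU * eval t βg) * map (eval t) (ρ' j)) ≤
          degreeOf j (map (eval t) (ρ' j)) := degreeOf_C_mul_le _ _ _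
      have h4 : degreeOf j (map (eval t) (ρ' j)) ≤ degreeOf j (ρ' j) := by
        rw [degreeOf_eq_sup, degreeOf_eq_sup]
        exact Finset.sup_mono (support_map_subset _ _)
      have h5 : degreeOf j (ρ' j) = 0 := by
        have h6 : degreeOf j (map (algebraMap A L) (ρ' j)) = degreeOf j (ρ' j) := by
          rw [degreeOf_eq_sup, degreeOf_eq_sup, support_map_of_injective _ hinj]
        rw [← h6, hρ' j]
        exact Nat.le_zero.1 ((degreeOf_C_mul_le _ _ _).trans (hρdeg j).le)
      omega
    have hC : q = C (coeff 0 q) := by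
      rw [← totalDegree_eq_zero_iff_eq_C]
      rw [totalDegree_eq_zero_iff]
      intro m hm x
      have := hdeg x
      rw [degreeOf_eq_sup] at this
      have h7 := (Finset.sup_eq_bot_iff (fun m : Fin (N+1) →₀ ℕ => m x) q.support).1 this m hm
      exact h7
    rw [hC]
    apply IsUnit.map
    rw [isUnit_iff_ne_zero]
    intro h0
    rw [h0, map_zero] at hC
    exact hq0 hC

end Pool.Agent.TH146
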