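import Mathlib

/-! Rational self-maps of projective space, their iterates, degree sequences and first dynamical
degree. -/

set_option autoImplicit false

namespace Pool.Agent.TH146

open MvPolynomial Filter Topology

/-- A rational self-map of `ℙ^N` over `K`: forms of one common degree without a nonconstant common
factor. -/
structure RatMap (K : Type*) [Field K] (N : ℕ) where
  /-- the coordinates -/
  poly : Fin (N + 1) → MvPolynomial (Fin (N + 1)) K
  /-- the degree of the rational map, which is the common degree of the coordinates -/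
  degree : ℕ
  homogeneous : ∀ i, (poly i).IsHomogeneous degree
  reduced : ∀ p : MvPolynomial (Fin (N + 1)) K, (∀ i, p ∣ poly i) → IsUnit p

variable {K : Type*} [Field K] {N : ℕ}

/-- The coordinates satisfy no nontrivial polynomial relation. -/
def RatMap.Dominant (f : RatMap K N) : Prop := AlgebraicIndependent K f.poly

/-- The `n`-fold composition computed by substitution (common factors are kept). -/
noncomputable def RatMap.subst (f : RatMap K N) : ℕ → Fin (N + 1) → MvPolynomial (Fin (N + 1)) K
  | 0 => X
  | (n + 1) => fun i => bind₁ (f.subst n) (f.poly i)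

/-- `g` is the `n`-th iterate of `f`: it is obtained from the `n`-fold composition by dividing
out a common factor. -/
def RatMap.IsIterate (f : RatMap K N) (n : ℕ) (g : RatMap K N) : Prop :=
  ∃ c : MvPolynomial (Fin (N + 1)) K, c ≠ 0 ∧ ∀ i, f.subst n i = c * g.poly i

/-- `e n = deg (f^n)` for all `n ≥ 1`: the `n`-th iterate exists, and its degree is `e n`. -/
def RatMap.IsDegreeSequence (f : RatMap K N) (e : ℕ → ℕ) : Prop :=
  ∀ n, 1 ≤ n → (∃ g, f.IsIterate n g) ∧ ∀ g, f.IsIterate n g → g.degree = e n

/-- `δ` is the first dynamical degree of `f`: the limit of `deg (f^n) ^ (1/n)`. -/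
def RatMap.IsDynDegree (f : RatMap K N) (δ : ℝ) : Prop :=
  ∃ e : ℕ → ℕ, f.IsDegreeSequence e ∧
    Tendsto (fun n : ℕ => (e n : ℝ) ^ ((1 : ℝ) / n)) atTop (𝓝 δ)

end Pool.Agent.TH146
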