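import Mathlib
import Pool.Agent.TH146.RatMap
import Pool.Agent.TH146.Gen
import Pool.Agent.Helper993.CS.Z5

/-! Drops of the dynamical degree in families. -/

set_option autoImplicit false

namespace Pool.Agent.TH146

open MvPolynomial Pool.Agent.Helper993.CS Filter Topology

universe u

theorem subst_eq_iter {K : Type u} [Field K] {N : ℕ} (f : RatMap K N) (n : ℕ) :
    f.subst n = iter f.poly n := by
  induction n with
  | zero => rfl
  | succ n ih => funext i; simp only [RatMap.subst, iter, ih]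

theorem isDegreeSequence_of {K : Type u} [Field K] {N : ℕ} (f : RatMap K N) (D : ℕ → ℕ)
    (hD : ∀ n, RedDeg (iter f.poly n) (D n) ∧ ∀ d', RedDeg (iter f.poly n) d' → d' = D n) :
    f.IsDegreeSequence D := by
  intro n _
  obtain ⟨⟨H, G, hH, hG, hGd, hGr⟩, huniq⟩ := hD n
  refine ⟨⟨⟨G, D n, hGd, hGr⟩, H, hH, fun i => ?_⟩, ?_⟩
  · rw [subst_eq_iter]
    exact hG i
  · rintro g ⟨c, hc, hg⟩
    apply huniq
    refine ⟨c, g.poly, hc, fun i => ?_, g.homogeneous, g.reduced⟩
    rw [← subst_eq_iter]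
    exact hg i

theorem algInd_iter {K : Type u} [Field K] {N : ℕ} (g : Fin (N+1) → MvPolynomial (Fin (N+1)) K)
    (hg : AlgebraicIndependent K g) (n : ℕ) : AlgebraicIndependent K (iter g n) := by
  induction n with
  | zero =>
    have : iter g 0 = X := rfl
    rw [this]
    exact MvPolynomial.algebraicIndependent_X _ _
  | succ n ih =>
    rw [algebraicIndependent_iff_injective_aeval] at *
    have h : (aeval (iter g (n+1)) : MvPolynomial (Fin (N+1)) K →ₐ[K] _) =
        (aeval (iter g n)).comp (aeval g) := by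
      apply MvPolynomial.algHom_ext
      intro i
      simp only [aeval_X, AlgHom.comp_apply]
      rfl
    rw [h]
    exact ih.comp hg

theorem iter_add {K : Type u} [Field K] {N : ℕ} (g : Fin (N+1) → MvPolynomial (Fin (N+1)) K)
    (a b : ℕ) (i : Fin (N+1)) : iter g (a + b) i = bind₁ (iter g a) (iter g b i) := by
  induction b generalizing i with
  | zero =>
    have : iter g 0 i = X i := rfl
    rw [this, bind₁_X_right]
    rfl
  | succ b ih =>
    have h1 : iter g (a + (b + 1)) i = bind₁ (iter g (a + b)) (g i) := rfl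
    have h2 : iter g (b + 1) i = bind₁ (iter g b) (g i) := rfl
    rw [h1, h2, bind₁_bind₁]
    congr 2
    funext j
    exact ih j

theorem iter_iter {K : Type u} [Field K] {N : ℕ} (g : Fin (N+1) → MvPolynomial (Fin (N+1)) K)
    (m j : ℕ) : iter (iter g m) j = iter g (j * m) := by
  induction j with
  | zero => rw [zero_mul]; rfl
  | succ j ih =>
    funext i
    have h1 : iter (iter g m) (j + 1) i = bind₁ (iter (iter g m) j) (iter g m i) := rfl
    rw [h1, ih, ← iter_add]
    congr 1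
    ring

theorem factor_iter {K : Type u} [Field K] {N : ℕ}
    (G g : Fin (N+1) → MvPolynomial (Fin (N+1)) K) (c : MvPolynomial (Fin (N+1)) K) (hc : c ≠ 0)
    {a e : ℕ} (hca : c.IsHomogeneous a) (hge : ∀ i, (g i).IsHomogeneous e)
    (hg : AlgebraicIndependent K g) (hG : ∀ i, G i = c * g i) (n : ℕ) :
    ∃ c' : MvPolynomial (Fin (N+1)) K, c' ≠ 0 ∧ ∀ i, iter G n i = c' * iter g n i := by
  induction n with
  | zero => exact ⟨1, one_ne_zero, fun i => (one_mul _).symm⟩
  | succ n ih =>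
    obtain ⟨c', hc', h⟩ := ih
    have h0 : aeval (iter g n) c ≠ 0 := by
      intro h0
      exact hc ((algebraicIndependent_iff_injective_aeval.1 (algInd_iter g hg n))
        (h0.trans (map_zero _).symm))
    refine ⟨c' ^ a * aeval (iter g n) c * c' ^ e,
      mul_ne_zero (mul_ne_zero (pow_ne_zero _ hc') h0) (pow_ne_zero _ hc'), fun i => ?_⟩
    have h1 : iter G (n+1) i = aeval (iter G n) (G i) := rfl
    have h2 : iter g (n+1) i = aeval (iter g n) (g i) := rfl
    have h3 : iter G n = fun i => c' * iter g n i := funext h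
    rw [h1, h2, hG i, map_mul, h3, ff_scale hca, ff_scale (hge i)]
    ring

theorem redDeg_of_factor {K : Type u} [Field K] {N : ℕ}
    {P Q : Fin (N+1) → MvPolynomial (Fin (N+1)) K} (c : MvPolynomial (Fin (N+1)) K) (hc : c ≠ 0)
    (h : ∀ i, P i = c * Q i) (D : ℕ) (hD : RedDeg P D) : RedDeg Q D := by
  obtain ⟨H, G, hH, hG, hGd, hGr⟩ := hD
  obtain ⟨s, hs⟩ := red_assoc hG hGr c fun i => ⟨Q i, h i⟩
  refine ⟨s, G, ?_, fun i => ?_, hGd, hGr⟩
  · rintro rfl
    exact hH (by rw [hs, mul_zero])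
  · apply mul_left_cancel₀ hc
    rw [← h i, hG i, hs]
    ring

theorem tendsto_mul_index (D : ℕ → ℕ) (δ : ℝ)
    (hδ : Tendsto (fun n : ℕ => (D n : ℝ) ^ ((1:ℝ) / n)) atTop (𝓝 δ)) (h0 : 0 < D 0) (j : ℕ) :
    Tendsto (fun m : ℕ => (D (m * j) : ℝ) ^ ((1:ℝ) / m)) atTop (𝓝 (δ ^ j)) := by
  rcases Nat.eq_zero_or_pos j with rfl | hj
  · simp only [mul_zero, pow_zero]
    have h0' : (0:ℝ) < D 0 := by exact_mod_cast h0
    have : Tendsto (fun n : ℕ => (1:ℝ) / n) atTop (𝓝 0) := tendsto_one_div_atTop_nhds_zero_nat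
    have h2 := (Real.continuousAt_const_rpow h0'.ne' (b := 0)).tendsto.comp this
    simpa [Function.comp_def] using h2
  · have h1 : Tendsto (fun m : ℕ => m * j) atTop atTop :=
      tendsto_id.atTop_mul_const' hj
    have h2 := (hδ.comp h1).pow j
    refine h2.congr' ?_
    filter_upwards [eventually_gt_atTop 0] with m hm
    simp only [Function.comp_apply]
    rw [← Real.rpow_natCast, ← Real.rpow_mul (by positivity)]
    congr 1
    have : (m:ℝ) ≠ 0 := by exact_mod_cast hm.ne'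
    have : (j:ℝ) ≠ 0 := by exact_mod_cast hj.ne'
    push_cast
    field_simp

theorem one_le_lim (D : ℕ → ℕ) (hpos : ∀ n, 0 < D n) (δ : ℝ)
    (hδ : Tendsto (fun n : ℕ => (D n : ℝ) ^ ((1:ℝ) / n)) atTop (𝓝 δ)) : 1 ≤ δ := by
  refine ge_of_tendsto' hδ fun n => ?_
  apply Real.one_le_rpow
  · exact_mod_cast hpos n
  · positivity

theorem asym (D : ℕ → ℕ) (hpos : ∀ n, 0 < D n) (δ : ℝ)
    (hδ : Tendsto (fun n : ℕ => (D n : ℝ) ^ ((1:ℝ) / n)) atTop (𝓝 δ)) (γ : ℝ) (hγ : 0 < γ)
    (N : ℕ) (x : ℝ) (hx : 0 < x) (hxδ : x < δ) :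
    ∃ m : ℕ, 1 ≤ m ∧ ∀ j < N, x ^ m < γ * ((D (m * (j + 1)) : ℝ) / D (m * j)) := by
  have h1 := one_le_lim D hpos δ hδ
  have hδ0 : δ ≠ 0 := by positivity
  have hall : ∀ j ∈ Finset.range N, ∀ᶠ m : ℕ in atTop,
      x ^ m < γ * ((D (m * (j + 1)) : ℝ) / D (m * j)) := by
    intro j _
    have h2 := tendsto_mul_index D δ hδ (hpos 0) (j + 1)
    have h3 := tendsto_mul_index D δ hδ (hpos 0) j
    have h4 : Tendsto (fun m : ℕ => γ ^ ((1:ℝ) / m)) atTop (𝓝 1) := by
      have : Tendsto (fun n : ℕ => (1:ℝ) / n) atTop (𝓝 0) := tendsto_one_div_atTop_nhds_zero_nat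
      have h2 := (Real.continuousAt_const_rpow hγ.ne' (b := 0)).tendsto.comp this
      simpa [Function.comp_def] using h2
    have h5 := h4.mul (h2.div h3 (pow_ne_zero _ hδ0))
    have h6 : (1 : ℝ) * (δ ^ (j + 1) / δ ^ j) = δ := by
      rw [pow_succ]
      field_simp
    rw [h6] at h5
    filter_upwards [h5.eventually (lt_mem_nhds hxδ), eventually_gt_atTop 0] with m hm hm0
    have ha : (0:ℝ) < D (m * (j + 1)) := by exact_mod_cast hpos _
    have hb : (0:ℝ) < D (m * j) := by exact_mod_cast hpos _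
    have hm' : (m:ℝ) ≠ 0 := by exact_mod_cast hm0.ne'
    simp only [Pi.div_apply] at hm
    rw [← Real.div_rpow ha.le hb.le, ← Real.mul_rpow hγ.le (by positivity)] at hm
    have h7 := pow_lt_pow_left₀ hm hx.le hm0.ne'
    rw [← Real.rpow_natCast ((γ * _) ^ _), ← Real.rpow_mul (by positivity)] at h7
    rwa [one_div, inv_mul_cancel₀ hm', Real.rpow_one] at h7
  have h8 := (Filter.eventually_all_finset (Finset.range N)).2 hall
  obtain ⟨m, hm, hm1⟩ := (h8.and (eventually_ge_atTop 1)).exists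
  exact ⟨m, hm1, fun j hj => hm j (Finset.mem_range.2 hj)⟩

theorem spec_hom {κ : Type u} [Field κ] {k N : ℕ}
    {F : Fin (N+1) → MvPolynomial (Fin (N+1)) (FractionRing (MvPolynomial (Fin k) κ))}
    {t : Fin k → κ} {G : Fin (N+1) → MvPolynomial (Fin (N+1)) κ} (h : Spec F t G) {d : ℕ}
    (hF : ∀ i, (F i).IsHomogeneous d) (i : Fin (N+1)) : (G i).IsHomogeneous d := by
  intro m hm
  obtain ⟨a, b, hb, h1, h2⟩ := h i m
  apply hF i
  intro h0
  apply hm
  rw [h0] at h1
  have hinj : Function.Injective (algebraMap (MvPolynomial (Fin k) κ)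
    (FractionRing (MvPolynomial (Fin k) κ))) := IsFractionRing.injective _ _
  have hb0 : b ≠ 0 := by
    rintro rfl
    exact hb (map_zero _)
  have hbL : algebraMap _ (FractionRing (MvPolynomial (Fin k) κ)) b ≠ 0 :=
    fun h => hb0 (hinj (h.trans (map_zero _).symm))
  have h3 : algebraMap _ (FractionRing (MvPolynomial (Fin k) κ)) a = 0 := by
    rcases div_eq_zero_iff.1 h1.symm with h | h
    · exact h
    · exact absurd h hbL
  have ha : a = 0 := hinj (h3.trans (map_zero _).symm)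
  rw [h2, ha, map_zero, zero_div]

/-- `g` is the member `f_t` of the family `f`: all coefficients of the coordinates of `f` are
defined at `t`, and `g` is obtained from the tuple of their values by dividing out a common
factor. -/
def IsMember {κ : Type u} [Field κ] {k N : ℕ}
    (f : RatMap (FractionRing (MvPolynomial (Fin k) κ)) N) (t : Fin k → κ) (g : RatMap κ N) :
    Prop :=
  ∃ G : Fin (N+1) → MvPolynomial (Fin (N+1)) κ, Spec f.poly t G ∧
    ∃ c : MvPolynomial (Fin (N+1)) κ, c ≠ 0 ∧ ∀ i, G i = c * g.poly i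

theorem drops (κ : Type u) [Field κ] [Infinite κ] (N k : ℕ) (hN : 1 ≤ N)
    (f : RatMap (FractionRing (MvPolynomial (Fin k) κ)) N) (hf : f.Dominant) :
    ∃ δ : ℝ, f.IsDynDegree δ ∧ ∀ ε : ℝ, 0 < ε → ∃ H : MvPolynomial (Fin k) κ, H ≠ 0 ∧
      ∀ (t : Fin k → κ) (g : RatMap κ N), IsMember f t g → g.Dominant →
        ∃ δt : ℝ, g.IsDynDegree δt ∧ (δt ≤ δ - ε → eval t H = 0) := by
  classical
  have hinjA : Function.Injective (algebraMap (MvPolynomial (Fin k) κ)
    (FractionRing (MvPolynomial (Fin k) κ))) := IsFractionRing.injective _ _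
  have : Infinite (FractionRing (MvPolynomial (Fin k) κ)) := by
    have h1 : Function.Injective (C : κ → MvPolynomial (Fin k) κ) := C_injective _ _
    exact Infinite.of_injective _ (hinjA.comp h1)
  obtain ⟨γ, hγ, hmain⟩ := main_inf.{u} N hN
  obtain ⟨D, hDpos, hDred, δ, hδ, -⟩ := hmain _ f.degree f.poly f.homogeneous hf
  refine ⟨δ, ⟨D, isDegreeSequence_of f D hDred, hδ⟩, fun ε hε => ?_⟩
  -- the member
  have hmem : ∀ g : RatMap κ N, g.Dominant → ∃ E : ℕ → ℕ, (∀ n, 0 < E n) ∧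
      (∀ n, RedDeg (iter g.poly n) (E n) ∧ ∀ d', RedDeg (iter g.poly n) d' → d' = E n) ∧
      ∃ δt : ℝ, Tendsto (fun n : ℕ => (E n : ℝ) ^ ((1:ℝ) / n)) atTop (𝓝 δt) := by
    intro g hg
    obtain ⟨E, h1, h2, δt, h3, -⟩ := hmain κ g.degree g.poly g.homogeneous hg
    exact ⟨E, h1, h2, δt, h3⟩
  rcases le_or_gt (δ - ε) 0 with hx | hx
  · refine ⟨1, one_ne_zero, fun t g _ hg => ?_⟩
    obtain ⟨E, hE1, hE2, δt, hE3⟩ := hmem g hg
    refine ⟨δt, ⟨E, isDegreeSequence_of g E hE2, hE3⟩, fun hle => ?_⟩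
    have := one_le_lim E hE1 δt hE3
    linarith
  obtain ⟨m, hm1, hm⟩ := asym D hDpos δ hδ γ hγ N (δ - ε) hx (by linarith)
  choose Hn hHn0 hHn using fun n => generic_deg f.poly f.homogeneous n (D n) (hDred n).1
  refine ⟨∏ j ∈ Finset.range (N + 1), Hn (m * j),
    Finset.prod_ne_zero_iff.2 fun j _ => hHn0 _, fun t g hg hgd => ?_⟩
  obtain ⟨E, hE1, hE2, δt, hE3⟩ := hmem g hgd
  refine ⟨δt, ⟨E, isDegreeSequence_of g E hE2, hE3⟩, fun hle => ?_⟩
  by_contra hne
  rw [map_prod, Finset.prod_eq_zero_iff] at hne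
  push Not at hne
  obtain ⟨G, hspec, c, hc, hG⟩ := hg
  have hGhom : ∀ i, (G i).IsHomogeneous f.degree := spec_hom hspec f.homogeneous
  have hg0 : ∀ i, g.poly i ≠ 0 := fun i => hgd.ne_zero i
  obtain ⟨a, b, -, hca, -⟩ := factor_hom (A := c) (B := g.poly 0) (e := f.degree)
    (hG 0 ▸ hGhom 0) (mul_ne_zero hc (hg0 0))
  have hEq : ∀ j ≤ N, E (m * j) = D (m * j) := by
    intro j hj
    have h1 := hHn (m * j) t (hne j (Finset.mem_range.2 (by omega))) G hGhom hspec
    obtain ⟨c', hc', h2⟩ := factor_iter G g.poly c hc hca g.homogeneous hgd hG (m * j)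
    exact ((hE2 (m * j)).2 _ (redDeg_of_factor c' hc' h2 _ h1)).symm
  -- the iterate of order `m`
  obtain ⟨E', hE'1, hE'2, δ', hE'3, hfin⟩ := hmain κ (g.degree ^ m) (iter g.poly m)
    (iter_hom _ _ g.homogeneous m) (algInd_iter _ hgd m)
  have hE'E : ∀ j, E' j = E (j * m) := by
    intro j
    have h1 := (hE'2 j).1
    rw [iter_iter] at h1
    exact (hE2 (j * m)).2 _ h1
  have hδ' : δ' = δt ^ m := by
    have h1 := tendsto_mul_index E δt hE3 (hE1 0) m
    refine tendsto_nhds_unique hE'3 ?_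
    simpa only [hE'E] using h1
  obtain ⟨j0, hj0, hmin⟩ := Finset.exists_min_image (Finset.range N)
    (fun j => (D (m * (j + 1)) : ℝ) / D (m * j)) (Finset.nonempty_range_iff.mpr (by omega))
  rw [Finset.mem_range] at hj0
  have h9 := hfin ((D (m * (j0 + 1)) : ℝ) / D (m * j0)) (fun j hj => by
    have h2 := hmin j (Finset.mem_range.2 hj)
    have h3 : (0 : ℝ) < D (m * j) := by exact_mod_cast hDpos _
    rw [hE'E, hE'E, mul_comm j m, mul_comm (j + 1) m, hEq j (by omega), hEq (j + 1) (by omega)]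
    calc _ ≤ (D (m * (j + 1)) : ℝ) / D (m * j) * D (m * j) :=
          mul_le_mul_of_nonneg_right h2 h3.le
      _ = D (m * (j + 1)) := div_mul_cancel₀ _ h3.ne')
  have h10 := hm j0 hj0
  have h11 := one_le_lim E hE1 δt hE3
  have h12 : δt ^ m ≤ (δ - ε) ^ m := pow_le_pow_left₀ (by linarith) hle m
  rw [hδ'] at h9
  linarith

end Pool.Agent.TH146
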