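import Mathlib
import Pool.Agent.TH146.Curve

/-! Specialisation of elements of a fraction field, and of points on `y ^ 2 = x ^ 3 + s` to the
cuspidal curve, whose nonsingular points form the additive group. -/

set_option autoImplicit false
set_option linter.unusedSectionVars false

namespace Pool.Agent.TH146

section Sp

variable {R K M : Type*} [CommRing R] [IsDomain R] [Field K] [Field M] [Algebra R M]
  [IsFractionRing R M] (ev : R →+* K)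

/-- `x` specialises to `k` -/
def Sp (x : M) (k : K) : Prop :=
  ∃ a b : R, ev b ≠ 0 ∧ x * algebraMap R M b = algebraMap R M a ∧ k * ev b = ev a

variable {ev}

theorem Sp.of (a : R) : Sp ev (algebraMap R M a) (ev a) :=
  ⟨a, 1, by rw [map_one]; exact one_ne_zero, by rw [map_one, mul_one], by rw [map_one, mul_one]⟩

theorem Sp.natCast (n : ℕ) : Sp (M := M) ev (n : M) (n : K) := by
  have := Sp.of (M := M) (ev := ev) (n : R)
  simpa using this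

theorem Sp.ofNat (n : ℕ) [n.AtLeastTwo] : Sp (M := M) ev (OfNat.ofNat n : M) (OfNat.ofNat n : K) := by
  have := Sp.natCast (M := M) (ev := ev) (OfNat.ofNat n : ℕ)
  simpa only [Nat.cast_ofNat] using this

theorem Sp.one : Sp (M := M) ev (1 : M) (1 : K) := by
  have := Sp.natCast (M := M) (ev := ev) 1
  simpa using this

theorem alg_ne {b : R} (hb : ev b ≠ 0) : algebraMap R M b ≠ 0 := by
  intro h
  have : b = 0 := (IsFractionRing.injective R M) (h.trans (map_zero _).symm)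
  exact hb (by rw [this, map_zero])

theorem Sp.add {x y : M} {k l : K} (hx : Sp ev x k) (hy : Sp ev y l) : Sp ev (x + y) (k + l) := by
  obtain ⟨a, b, hb, h1, h2⟩ := hx
  obtain ⟨c, d, hd, h3, h4⟩ := hy
  refine ⟨a * d + c * b, b * d, by rw [map_mul]; exact mul_ne_zero hb hd, ?_, ?_⟩
  · simp only [map_add, map_mul]
    linear_combination algebraMap R M d * h1 + algebraMap R M b * h3
  · simp only [map_add, map_mul]
    linear_combination ev d * h2 + ev b * h4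

theorem Sp.mul {x y : M} {k l : K} (hx : Sp ev x k) (hy : Sp ev y l) : Sp ev (x * y) (k * l) := by
  obtain ⟨a, b, hb, h1, h2⟩ := hx
  obtain ⟨c, d, hd, h3, h4⟩ := hy
  refine ⟨a * c, b * d, by rw [map_mul]; exact mul_ne_zero hb hd, ?_, ?_⟩
  · simp only [map_mul]
    rw [← h1, ← h3]; ring
  · simp only [map_mul]
    rw [← h2, ← h4]; ring

theorem Sp.neg {x : M} {k : K} (hx : Sp ev x k) : Sp ev (-x) (-k) := by
  obtain ⟨a, b, hb, h1, h2⟩ := hx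
  refine ⟨-a, b, hb, ?_, ?_⟩
  · rw [map_neg, ← h1]; ring
  · rw [map_neg, ← h2]; ring

theorem Sp.sub {x y : M} {k l : K} (hx : Sp ev x k) (hy : Sp ev y l) : Sp ev (x - y) (k - l) := by
  rw [sub_eq_add_neg, sub_eq_add_neg]
  exact hx.add hy.neg

theorem Sp.pow {x : M} {k : K} (hx : Sp ev x k) (n : ℕ) : Sp ev (x ^ n) (k ^ n) := by
  induction n with
  | zero => simpa using Sp.one (M := M) (ev := ev)
  | succ n ih => rw [pow_succ, pow_succ]; exact ih.mul hx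

theorem Sp.ne_zero {x : M} {k : K} (hx : Sp ev x k) (hk : k ≠ 0) : x ≠ 0 := by
  obtain ⟨a, b, hb, h1, h2⟩ := hx
  rintro rfl
  rw [zero_mul] at h1
  have : a = 0 := (IsFractionRing.injective R M) (h1.symm.trans (map_zero _).symm)
  rw [this, map_zero] at h2
  exact (mul_ne_zero hk hb) h2

theorem Sp.inv {x : M} {k : K} (hx : Sp ev x k) (hk : k ≠ 0) : Sp ev x⁻¹ k⁻¹ := by
  have hx0 := hx.ne_zero hk
  obtain ⟨a, b, hb, h1, h2⟩ := hx
  have ha : ev a ≠ 0 := by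
    rw [← h2]; exact mul_ne_zero hk hb
  refine ⟨b, a, ha, ?_, ?_⟩
  · rw [← h1, ← mul_assoc, inv_mul_cancel₀ hx0, one_mul]
  · rw [← h2, ← mul_assoc, inv_mul_cancel₀ hk, one_mul]

theorem Sp.div {x y : M} {k l : K} (hx : Sp ev x k) (hy : Sp ev y l) (hl : l ≠ 0) :
    Sp ev (x / y) (k / l) := by
  rw [div_eq_mul_inv, div_eq_mul_inv]
  exact hx.mul (hy.inv hl)

theorem Sp.ne {x y : M} {k l : K} (hx : Sp ev x k) (hy : Sp ev y l) (h : k ≠ l) : x ≠ y := by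
  have := (hx.sub hy).ne_zero (sub_ne_zero.2 h)
  exact sub_ne_zero.1 this

end Sp

section Z

variable {R K M : Type*} [CommRing R] [IsDomain R] [Field K] [Field M] [Algebra R M]
  [IsFractionRing R M] (ev : R →+* K) {s : M}

/-- the point `A` specialises to the point with parameter `a` of the cuspidal cubic -/
def Zp (A : (Wc s).Point) (a : K) : Prop :=
  ∃ x y : M, Has A x y ∧ Sp ev x (a⁻¹ ^ 2) ∧ Sp ev y (a⁻¹ ^ 3)

variable {ev}

theorem Zp.neg {A : (Wc s).Point} {a : K} (h : Zp ev A a) : Zp ev (-A) (-a) := by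
  obtain ⟨x, y, h1, h2, h3⟩ := h
  refine ⟨x, -y, h1.neg, ?_, ?_⟩
  · rwa [inv_neg, neg_sq]
  · have := h3.neg
    rwa [inv_neg, Odd.neg_pow (by decide)]

theorem Zp.add [DecidableEq M] {A B : (Wc s).Point} {a b : K} (hA : Zp ev A a) (hB : Zp ev B b)
    (ha : a ≠ 0) (hb : b ≠ 0) (hab : a ≠ b) (hab' : a + b ≠ 0) : Zp ev (A + B) (a + b) := by
  obtain ⟨x₁, y₁, h1, h2, h3⟩ := hA
  obtain ⟨x₂, y₂, h4, h5, h6⟩ := hB
  have hne : a⁻¹ ^ 2 ≠ b⁻¹ ^ 2 := by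
    intro h
    have h' : a ^ 2 = b ^ 2 := by
      rw [inv_pow, inv_pow] at h
      exact inv_injective h
    rcases sq_eq_sq_iff_eq_or_eq_neg.1 h' with h | h
    · exact hab h
    · apply hab'
      rw [h]; ring
  have hx : x₁ ≠ x₂ := h2.ne h5 hne
  have hl := (h3.sub h6).div (h2.sub h5) (sub_ne_zero.2 hne)
  have hX := ((hl.pow 2).sub h2).sub h5
  have hY := ((hl.mul (hX.sub h2)).add h3).neg
  have hba : b ^ 2 - a ^ 2 ≠ 0 := by
    intro h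
    apply hne
    have : a ^ 2 = b ^ 2 := by linear_combination -h
    rw [inv_pow, inv_pow, this]
  have el : (a⁻¹ ^ 3 - b⁻¹ ^ 3) / (a⁻¹ ^ 2 - b⁻¹ ^ 2) =
      (a ^ 2 + a * b + b ^ 2) / (a * b * (a + b)) := by
    have h1 : a⁻¹ ^ 2 - b⁻¹ ^ 2 = (b ^ 2 - a ^ 2) / (a ^ 2 * b ^ 2) := by field_simp
    have h2 : a⁻¹ ^ 3 - b⁻¹ ^ 3 = (b ^ 3 - a ^ 3) / (a ^ 3 * b ^ 3) := by field_simp
    rw [h1, h2]
    have : b - a ≠ 0 := sub_ne_zero.2 hab.symm
    field_simp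
    ring
  have eX : ((a⁻¹ ^ 3 - b⁻¹ ^ 3) / (a⁻¹ ^ 2 - b⁻¹ ^ 2)) ^ 2 - a⁻¹ ^ 2 - b⁻¹ ^ 2 =
      (a + b)⁻¹ ^ 2 := by
    rw [el]
    field_simp
    ring
  rw [eX] at hX hY
  have eY : -((a⁻¹ ^ 3 - b⁻¹ ^ 3) / (a⁻¹ ^ 2 - b⁻¹ ^ 2) * ((a + b)⁻¹ ^ 2 - a⁻¹ ^ 2) + a⁻¹ ^ 3) =
      (a + b)⁻¹ ^ 3 := by
    rw [el]
    field_simp
    ring
  rw [eY] at hY
  exact ⟨_, _, h1.add h4 hx _ _ _ rfl rfl rfl, hX, hY⟩

theorem Zp.dbl [DecidableEq M] {A : (Wc s).Point} {a : K} (hA : Zp ev A a)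
    (ha : a ≠ 0) (h2 : (2 : K) ≠ 0) : Zp ev (A + A) (a + a) := by
  obtain ⟨x, y, h1, hx, hy⟩ := hA
  have hy2 := (Sp.ofNat (M := M) (ev := ev) 2).mul hy
  have hne : (2 : K) * a⁻¹ ^ 3 ≠ 0 := mul_ne_zero h2 (pow_ne_zero _ (inv_ne_zero ha))
  have hy0 : 2 * y ≠ 0 := hy2.ne_zero hne
  have hl := ((Sp.ofNat (M := M) (ev := ev) 3).mul (hx.pow 2)).div hy2 hne
  have hX := ((hl.pow 2).sub hx).sub hx
  have hY := ((hl.mul (hX.sub hx)).add hy).neg
  have e2 : a + a = 2 * a := by ring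
  have el : (3 : K) * (a⁻¹ ^ 2) ^ 2 / (2 * a⁻¹ ^ 3) = 3 / (2 * a) := by
    field_simp
  have eX : ((3 : K) * (a⁻¹ ^ 2) ^ 2 / (2 * a⁻¹ ^ 3)) ^ 2 - a⁻¹ ^ 2 - a⁻¹ ^ 2 = (a + a)⁻¹ ^ 2 := by
    rw [el, e2]
    field_simp
    ring
  rw [eX] at hX hY
  have eY : -((3 : K) * (a⁻¹ ^ 2) ^ 2 / (2 * a⁻¹ ^ 3) * ((a + a)⁻¹ ^ 2 - a⁻¹ ^ 2) + a⁻¹ ^ 3) =
      (a + a)⁻¹ ^ 3 := by
    rw [el, e2]
    field_simp
    ring
  rw [eY] at hY
  exact ⟨_, _, h1.dbl hy0 _ _ _ rfl rfl rfl, hX, hY⟩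

end Z

end Pool.Agent.TH146
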