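import Mathlib
import Pool.Agent.TH146.Spz

/-! The orbit of a triple of points under `(A, B, C) ↦ (A, B + A, C + B)` stays nondegenerate. -/

set_option autoImplicit false
set_option linter.unusedSectionVars false

namespace Pool.Agent.TH146

/-- a nondegenerate triple of points given by coordinates -/
structure NT {M : Type*} [Field M] (s : M) (A B C : (Wc s).Point) (x₁ y₁ x₂ y₂ x₃ y₃ : M) :
    Prop where
  hA : Has A x₁ y₁
  hB : Has B x₂ y₂
  hC : Has C x₃ y₃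
  x3 : x₃ ≠ 0
  y12 : y₁ ≠ y₂
  y13 : y₁ ≠ y₃
  y23 : y₂ ≠ y₃
  x12 : x₁ ≠ x₂
  x23 : x₂ ≠ x₃

/-- parameters of a nondegenerate triple -/
structure NZ {K : Type*} [Field K] (a b c : K) : Prop where
  ha : a ≠ 0
  hb : b ≠ 0
  hc : c ≠ 0
  ab3 : a ^ 3 ≠ b ^ 3
  ac3 : a ^ 3 ≠ c ^ 3
  bc3 : b ^ 3 ≠ c ^ 3
  ab2 : a ^ 2 ≠ b ^ 2
  bc2 : b ^ 2 ≠ c ^ 2

theorem NZ.smul {K : Type*} [Field K] {a b c : K} (h : NZ a b c) {z : K} (hz : z ≠ 0) :
    NZ (a * z) (b * z) (c * z) := by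
  have h2 : z ^ 2 ≠ 0 := pow_ne_zero _ hz
  have h3 : z ^ 3 ≠ 0 := pow_ne_zero _ hz
  constructor
  · exact mul_ne_zero h.ha hz
  · exact mul_ne_zero h.hb hz
  · exact mul_ne_zero h.hc hz
  · rw [mul_pow, mul_pow]; exact fun e => h.ab3 (mul_right_cancel₀ h3 e)
  · rw [mul_pow, mul_pow]; exact fun e => h.ac3 (mul_right_cancel₀ h3 e)
  · rw [mul_pow, mul_pow]; exact fun e => h.bc3 (mul_right_cancel₀ h3 e)
  · rw [mul_pow, mul_pow]; exact fun e => h.ab2 (mul_right_cancel₀ h2 e)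
  · rw [mul_pow, mul_pow]; exact fun e => h.bc2 (mul_right_cancel₀ h2 e)

theorem NZ.nat {K : Type*} [Field K] [CharZero K] {a b c : ℕ} (ha : a ≠ 0) (hb : b ≠ 0)
    (hc : c ≠ 0) (hab : a ≠ b) (hac : a ≠ c) (hbc : b ≠ c) : NZ (a : K) (b : K) (c : K) := by
  have key : ∀ (n : ℕ), n ≠ 0 → ∀ u v : ℕ, u ≠ v → (u : K) ^ n ≠ (v : K) ^ n := by
    intro n hn u v huv h
    have h' : u ^ n = v ^ n := by exact_mod_cast h
    exact huv (Nat.pow_left_injective hn h')
  exact ⟨by exact_mod_cast ha, by exact_mod_cast hb, by exact_mod_cast hc,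
    key 3 (by norm_num) _ _ hab, key 3 (by norm_num) _ _ hac, key 3 (by norm_num) _ _ hbc,
    key 2 (by norm_num) _ _ hab, key 2 (by norm_num) _ _ hbc⟩

variable {R K M : Type*} [CommRing R] [IsDomain R] [Field K] [Field M] [Algebra R M]
  [IsFractionRing R M] {ev : R →+* K} {s : M}

theorem NT.of_Zp {A B C : (Wc s).Point} {a b c : K} (hA : Zp ev A a) (hB : Zp ev B b)
    (hC : Zp ev C c) (h : NZ a b c) : ∃ x₁ y₁ x₂ y₂ x₃ y₃ : M, NT s A B C x₁ y₁ x₂ y₂ x₃ y₃ := by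
  obtain ⟨x₁, y₁, h1, hx1, hy1⟩ := hA
  obtain ⟨x₂, y₂, h2, hx2, hy2⟩ := hB
  obtain ⟨x₃, y₃, h3, hx3, hy3⟩ := hC
  have key : ∀ (n : ℕ) (u v : K), u ^ n ≠ v ^ n → u⁻¹ ^ n ≠ v⁻¹ ^ n := by
    intro n u v huv h
    rw [inv_pow, inv_pow] at h
    exact huv (inv_injective h)
  exact ⟨x₁, y₁, x₂, y₂, x₃, y₃, h1, h2, h3,
    hx3.ne_zero (pow_ne_zero _ (inv_ne_zero h.hc)), hy1.ne hy2 (key _ _ _ h.ab3),
    hy1.ne hy3 (key _ _ _ h.ac3), hy2.ne hy3 (key _ _ _ h.bc3), hx1.ne hx2 (key _ _ _ h.ab2),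
    hx2.ne hx3 (key _ _ _ h.bc2)⟩

/-- sum of two points with parameters `a z`, `b z`, where `a`, `b` are positive integers -/
theorem Zp.add_nat [DecidableEq M] [CharZero K] {A B : (Wc s).Point} {z : K} (hz : z ≠ 0)
    {a b : ℕ} (hA : Zp ev A ((a : K) * z)) (hB : Zp ev B ((b : K) * z)) (ha : a ≠ 0) (hb : b ≠ 0)
    (hAB : a = b → A = B) :
    Zp ev (A + B) (((a + b : ℕ) : K) * z) := by
  have ha' : (a : K) ≠ 0 := by exact_mod_cast ha
  have hb' : (b : K) ≠ 0 := by exact_mod_cast hb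
  by_cases hab : a = b
  · have := hAB hab
    subst this
    subst hab
    have h := hA.dbl (mul_ne_zero ha' hz) two_ne_zero
    have e : ((a + a : ℕ) : K) * z = (a : K) * z + (a : K) * z := by push_cast; ring
    rw [e]
    exact h
  · have e : ((a + b : ℕ) : K) * z = (a : K) * z + (b : K) * z := by push_cast; ring
    rw [e]
    refine hA.add hB (mul_ne_zero ha' hz) (mul_ne_zero hb' hz) ?_ ?_
    · intro h
      have := mul_right_cancel₀ hz h
      exact hab (by exact_mod_cast this)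
    · rw [← e]
      refine mul_ne_zero ?_ hz
      have : a + b ≠ 0 := by omega
      exact_mod_cast this

/-- the orbit -/
def orb {G : Type*} [AddCommGroup G] (A B C : G) : ℕ → G × G × G
  | 0 => (A, B, C)
  | n + 1 => ((orb A B C n).1, (orb A B C n).2.1 + (orb A B C n).1,
      (orb A B C n).2.2 + (orb A B C n).2.1)

theorem orb_eq {G : Type*} [AddCommGroup G] (A B C : G) (n : ℕ) :
    orb A B C n = (A, B + n • A, C + n • B + (n.choose 2) • A) := by
  induction n with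
  | zero => simp [orb]
  | succ n ih =>
    simp only [orb, ih]
    refine Prod.ext rfl (Prod.ext ?_ ?_)
    · simp only [succ_nsmul]; abel
    · simp only [succ_nsmul]
      have : (n + 1).choose 2 = n.choose 2 + n := by
        rw [Nat.choose_succ_succ' n 1, Nat.choose_one_right]; ring
      rw [this, add_nsmul]; abel

theorem orb_Zp [DecidableEq M] [CharZero K] {A B C : (Wc s).Point} {z : K} (hz : z ≠ 0)
    (hA : Zp ev A (((2 : ℕ) : K) * z)) (hB : Zp ev B (((3 : ℕ) : K) * z))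
    (hC : Zp ev C (((1 : ℕ) : K) * z)) (n : ℕ) :
    Zp ev (orb A B C n).1 (((2 : ℕ) : K) * z) ∧
    Zp ev (orb A B C n).2.1 (((2 * n + 3 : ℕ) : K) * z) ∧
    Zp ev (orb A B C n).2.2 ((((n + 1) ^ 2 : ℕ) : K) * z) := by
  induction n with
  | zero => exact ⟨hA, by simpa [orb] using hB, by simpa [orb] using hC⟩
  | succ n ih =>
    obtain ⟨h1, h2, h3⟩ := ih
    refine ⟨h1, ?_, ?_⟩
    · have h := Zp.add_nat hz h2 h1 (by omega) (by omega) (fun h => by omega)
      have e : 2 * (n + 1) + 3 = 2 * n + 3 + 2 := by ring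
      rw [e]
      exact h
    · have h := Zp.add_nat hz h3 h2 (by positivity) (by omega) (fun h => by
        exfalso
        have h5 : n ^ 2 = 2 := by nlinarith
        have h6 : n < 2 := by nlinarith
        interval_cases n <;> omega)
      have e : (n + 1 + 1) ^ 2 = (n + 1) ^ 2 + (2 * n + 3) := by ring
      rw [e]
      exact h

theorem orb_NT [DecidableEq M] [CharZero K] {A B C : (Wc s).Point} {z : K} (hz : z ≠ 0)
    (hA : Zp ev A (((2 : ℕ) : K) * z)) (hB : Zp ev B (((3 : ℕ) : K) * z))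
    (hC : Zp ev C (((1 : ℕ) : K) * z)) (n : ℕ) :
    ∃ x₁ y₁ x₂ y₂ x₃ y₃ : M, NT s (orb A B C n).1 (orb A B C n).2.1 (orb A B C n).2.2
      x₁ y₁ x₂ y₂ x₃ y₃ := by
  obtain ⟨h1, h2, h3⟩ := orb_Zp hz hA hB hC n
  refine NT.of_Zp h1 h2 h3 (NZ.smul (NZ.nat ?_ ?_ ?_ ?_ ?_ ?_) hz)
  · norm_num
  · omega
  · positivity
  · omega
  · intro h
    have h6 : n < 2 := by nlinarith
    interval_cases n <;> omega
  · intro h
    have h5 : n ^ 2 = 2 := by nlinarith
    have h6 : n < 2 := by nlinarith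
    interval_cases n <;> omega

end Pool.Agent.TH146
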