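import Mathlib
import Pool.Agent.TH146.Orb

/-! The rational self-map of `ℙ^3` induced by `(A, B, C) ↦ (A, B + A, C + B)` on
`E ^ 3 / μ_6`, in the coordinates
`[x₃ (y₁ - y₂) : x₃ (y₁ - y₃) : x₁ (y₁ - y₂) : x₂ (y₁ - y₂)]`. -/

set_option autoImplicit false

namespace Pool.Agent.TH146

section

variable {R : Type*} [CommRing R] (w c p q : R)

def cN : R := (w - c) * p ^ 3 + c * q ^ 3 - w ^ 4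
def cD : R := w ^ 2 * c * (w - c)
def cA : R := cN w c p q * w ^ 3 - (p + q) * (p - q) ^ 2 * cD w c
def cB : R := (c - w) ^ 2 * cN w c p q * w - (q + w) * (q - w) ^ 2 * cD w c
def cE : R := (p ^ 3 - q ^ 3) * (q - w) ^ 3 * cD w c ^ 2 +
  (c - w) * cN w c p q * w ^ 2 * (cB w c p q - q * cD w c * (q - w) ^ 2)
def cG : R := (p ^ 3 - q ^ 3) * (p - q) ^ 3 * cD w c ^ 2 +
  cN w c p q * w ^ 3 * cD w c * (p - q) ^ 3 +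
  cN w c p q * w ^ 3 * (cA w c p q - p * cD w c * (p - q) ^ 2)

/-- the coordinates of the map -/
def cF : Fin 4 → R :=
  ![(p - q) ^ 2 * cB w c p q * cG w c p q * (q - w) ^ 3,
    cE w c p q * (p - q) ^ 5 * cB w c p q,
    p * cD w c * (q - w) ^ 5 * (p - q) ^ 2 * cG w c p q,
    cA w c p q * (q - w) ^ 5 * cG w c p q]

end

/-- the point of `ℙ^3` attached to a triple of points of a curve `y ^ 2 = x ^ 3 + s` -/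
def vec {R : Type*} [CommRing R] (x₁ y₁ x₂ y₂ x₃ y₃ : R) : Fin 4 → R :=
  ![x₃ * (y₁ - y₂), x₃ * (y₁ - y₃), x₁ * (y₁ - y₂), x₂ * (y₁ - y₂)]

theorem step_alg {M : Type*} [Field M] {s x₁ y₁ x₂ y₂ x₃ y₃ : M}
    (h1 : y₁ ^ 2 = x₁ ^ 3 + s) (h2 : y₂ ^ 2 = x₂ ^ 3 + s) (h3 : y₃ ^ 2 = x₃ ^ 3 + s)
    (X₂ Y₂ X₃ Y₃ : M)
    (hX₂ : X₂ * (x₁ - x₂) ^ 2 = (y₁ - y₂) ^ 2 - (x₁ + x₂) * (x₁ - x₂) ^ 2)
    (hY₂ : (y₁ - Y₂) * (x₁ - x₂) = 2 * y₁ * (x₁ - x₂) + (y₁ - y₂) * (X₂ - x₁))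
    (hX₃ : X₃ * (x₂ - x₃) ^ 2 = (y₂ - y₃) ^ 2 - (x₂ + x₃) * (x₂ - x₃) ^ 2)
    (hY₃ : (y₁ - Y₃) * (x₂ - x₃) = (y₁ + y₂) * (x₂ - x₃) + (y₂ - y₃) * (X₃ - x₂)) (i : Fin 4) :
    cF (vec x₁ y₁ x₂ y₂ x₃ y₃ 0) (vec x₁ y₁ x₂ y₂ x₃ y₃ 1) (vec x₁ y₁ x₂ y₂ x₃ y₃ 2)
      (vec x₁ y₁ x₂ y₂ x₃ y₃ 3) i =
    x₃ ^ 12 * (y₁ - y₂) ^ 21 * (y₁ - y₃) ^ 3 * (y₃ - y₂) ^ 3 * (x₁ - x₂) ^ 5 * (x₂ - x₃) ^ 5 *
      vec x₁ y₁ X₂ Y₂ X₃ Y₃ i := by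
  obtain ⟨a, ha⟩ : ∃ a, a = y₁ - y₂ := ⟨_, rfl⟩
  obtain ⟨b, hb⟩ : ∃ b, b = y₁ - y₃ := ⟨_, rfl⟩
  have e2 : y₂ = y₁ - a := by rw [ha]; ring
  have e3 : y₃ = y₁ - b := by rw [hb]; ring
  subst e2
  subst e3
  have v0 : vec x₁ y₁ x₂ (y₁ - a) x₃ (y₁ - b) 0 = x₃ * a := by simp [vec]
  have v1 : vec x₁ y₁ x₂ (y₁ - a) x₃ (y₁ - b) 1 = x₃ * b := by simp [vec]
  have v2 : vec x₁ y₁ x₂ (y₁ - a) x₃ (y₁ - b) 2 = x₁ * a := by simp [vec]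
  have v3 : vec x₁ y₁ x₂ (y₁ - a) x₃ (y₁ - b) 3 = x₂ * a := by simp [vec]
  rw [v0, v1, v2, v3]
  have s1 : x₁ ^ 3 = y₁ ^ 2 - s := by rw [h1]; ring
  have s2 : x₂ ^ 3 = (y₁ - a) ^ 2 - s := by rw [h2]; ring
  have s3 : x₃ ^ 3 = (y₁ - b) ^ 2 - s := by rw [h3]; ring
  have hN : cN (x₃ * a) (x₃ * b) (x₁ * a) (x₂ * a) = x₃ * a ^ 4 * b * (a - b) := by
    unfold cN
    have : (x₃ * a - x₃ * b) * (x₁ * a) ^ 3 + x₃ * b * (x₂ * a) ^ 3 - (x₃ * a) ^ 4 =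
        x₃ * a ^ 3 * ((a - b) * x₁ ^ 3 + b * x₂ ^ 3 - a * x₃ ^ 3) := by ring
    rw [this, s1, s2, s3]
    ring
  have hD : cD (x₃ * a) (x₃ * b) = x₃ ^ 4 * a ^ 2 * b * (a - b) := by
    unfold cD; ring
  have hA : cA (x₃ * a) (x₃ * b) (x₁ * a) (x₂ * a) =
      x₃ ^ 4 * a ^ 5 * b * (a - b) * (X₂ * (x₁ - x₂) ^ 2) := by
    unfold cA
    rw [hN, hD, hX₂]
    ring
  have hB : cB (x₃ * a) (x₃ * b) (x₁ * a) (x₂ * a) =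
      x₃ ^ 4 * a ^ 5 * b * (a - b) * (X₃ * (x₂ - x₃) ^ 2) := by
    unfold cB
    rw [hN, hD, hX₃]
    ring
  have hG : cG (x₃ * a) (x₃ * b) (x₁ * a) (x₂ * a) =
      x₃ ^ 8 * a ^ 11 * b ^ 2 * (a - b) ^ 2 * (x₁ - x₂) ^ 2 * ((y₁ - Y₂) * (x₁ - x₂)) := by
    unfold cG
    rw [hN, hD, hA, hY₂]
    have : (x₁ * a) ^ 3 - (x₂ * a) ^ 3 = a ^ 3 * (x₁ ^ 3 - x₂ ^ 3) := by ring
    rw [this, s1, s2]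
    ring
  have hE : cE (x₃ * a) (x₃ * b) (x₁ * a) (x₂ * a) =
      x₃ ^ 8 * a ^ 11 * b ^ 2 * (a - b) ^ 2 * (x₂ - x₃) ^ 2 * ((y₁ - Y₃) * (x₂ - x₃)) := by
    unfold cE
    rw [hN, hD, hB, hY₃]
    have : (x₁ * a) ^ 3 - (x₂ * a) ^ 3 = a ^ 3 * (x₁ ^ 3 - x₂ ^ 3) := by ring
    rw [this, s1, s2]
    ring
  fin_cases i
  · simp only [cF, vec, Fin.zero_eta, Matrix.cons_val_zero]
    rw [hB, hG]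
    ring
  · simp only [cF, vec, Fin.mk_one, Matrix.cons_val_one]
    rw [hB, hE]
    simp only [Matrix.cons_val_zero]
    ring
  · simp only [cF, vec, Fin.reduceFinMk, Matrix.cons_val]
    rw [hD, hG]
    ring
  · simp only [cF, vec, Fin.reduceFinMk, Matrix.cons_val]
    rw [hA, hG]
    ring

end Pool.Agent.TH146
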