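import Mathlib
import Pool.Agent.TH146.MapF
import Pool.Agent.TH146.RatMap
import Pool.Agent.Helper993.CS.Z2

/-! The self-map of `ℙ^3` as a tuple of forms, and the orbits of nondegenerate triples. -/

set_option autoImplicit false
set_option linter.unusedSectionVars false

namespace Pool.Agent.TH146

open MvPolynomial Pool.Agent.Helper993.CS

universe u

theorem map_cF {R S : Type*} [CommRing R] [CommRing S] (φ : R →+* S) (w c p q : R) (i : Fin 4) :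
    φ (cF w c p q i) = cF (φ w) (φ c) (φ p) (φ q) i := by
  fin_cases i <;>
    simp [cF, cG, cE, cB, cA, cD, cN]

/-- the tuple of forms -/
noncomputable def Fpoly (K : Type u) [Field K] : Fin 4 → MvPolynomial (Fin 4) K :=
  cF (X 0) (X 1) (X 2) (X 3)

theorem aeval_Fpoly {K : Type u} [Field K] {A : Type*} [CommRing A] [Algebra K A]
    (v : Fin 4 → A) (i : Fin 4) :
    aeval v (Fpoly K i) = cF (v 0) (v 1) (v 2) (v 3) i := by
  have h := map_cF (aeval v : MvPolynomial (Fin 4) K →ₐ[K] A).toRingHom (X 0) (X 1) (X 2) (X 3) i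
  have h2 : aeval v (Fpoly K i) =
      (aeval v : MvPolynomial (Fin 4) K →ₐ[K] A).toRingHom (cF (X 0) (X 1) (X 2) (X 3) i) := rfl
  rw [h2, h]
  simp only [AlgHom.toRingHom_eq_coe, RingHom.coe_coe, aeval_X]

section hom

variable {σ K : Type*} [Field K] {w c p q : MvPolynomial σ K}

theorem hom_cN (hw : w.IsHomogeneous 1) (hc : c.IsHomogeneous 1) (hp : p.IsHomogeneous 1)
    (hq : q.IsHomogeneous 1) : (cN w c p q).IsHomogeneous 4 :=
  (((hw.sub hc).mul (hp.pow 3)).add (hc.mul (hq.pow 3))).sub (hw.pow 4)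

theorem hom_cD (hw : w.IsHomogeneous 1) (hc : c.IsHomogeneous 1) : (cD w c).IsHomogeneous 4 :=
  ((hw.pow 2).mul hc).mul (hw.sub hc)

theorem hom_cA (hw : w.IsHomogeneous 1) (hc : c.IsHomogeneous 1) (hp : p.IsHomogeneous 1)
    (hq : q.IsHomogeneous 1) : (cA w c p q).IsHomogeneous 7 :=
  ((hom_cN hw hc hp hq).mul (hw.pow 3)).sub
    (((hp.add hq).mul ((hp.sub hq).pow 2)).mul (hom_cD hw hc))

theorem hom_cB (hw : w.IsHomogeneous 1) (hc : c.IsHomogeneous 1) (hp : p.IsHomogeneous 1)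
    (hq : q.IsHomogeneous 1) : (cB w c p q).IsHomogeneous 7 :=
  ((((hc.sub hw).pow 2).mul (hom_cN hw hc hp hq)).mul hw).sub
    (((hq.add hw).mul ((hq.sub hw).pow 2)).mul (hom_cD hw hc))

theorem hom_cE (hw : w.IsHomogeneous 1) (hc : c.IsHomogeneous 1) (hp : p.IsHomogeneous 1)
    (hq : q.IsHomogeneous 1) : (cE w c p q).IsHomogeneous 14 :=
  ((((hp.pow 3).sub (hq.pow 3)).mul ((hq.sub hw).pow 3)).mul ((hom_cD hw hc).pow 2)).add
    ((((hc.sub hw).mul (hom_cN hw hc hp hq)).mul (hw.pow 2)).mul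
      ((hom_cB hw hc hp hq).sub ((hq.mul (hom_cD hw hc)).mul ((hq.sub hw).pow 2))))

theorem hom_cG (hw : w.IsHomogeneous 1) (hc : c.IsHomogeneous 1) (hp : p.IsHomogeneous 1)
    (hq : q.IsHomogeneous 1) : (cG w c p q).IsHomogeneous 14 :=
  (((((hp.pow 3).sub (hq.pow 3)).mul ((hp.sub hq).pow 3)).mul ((hom_cD hw hc).pow 2)).add
    ((((hom_cN hw hc hp hq).mul (hw.pow 3)).mul (hom_cD hw hc)).mul ((hp.sub hq).pow 3))).add
    (((hom_cN hw hc hp hq).mul (hw.pow 3)).mul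
      ((hom_cA hw hc hp hq).sub ((hp.mul (hom_cD hw hc)).mul ((hp.sub hq).pow 2))))

theorem hom_cF (hw : w.IsHomogeneous 1) (hc : c.IsHomogeneous 1) (hp : p.IsHomogeneous 1)
    (hq : q.IsHomogeneous 1) (i : Fin 4) : (cF w c p q i).IsHomogeneous 26 := by
  have hB := hom_cB hw hc hp hq
  have hG := hom_cG hw hc hp hq
  have hE := hom_cE hw hc hp hq
  have hA := hom_cA hw hc hp hq
  have hD := hom_cD hw hc
  fin_cases i
  · exact ((((hp.sub hq).pow 2).mul hB).mul hG).mul ((hq.sub hw).pow 3)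
  · exact (hE.mul ((hp.sub hq).pow 5)).mul hB
  · exact (((hp.mul hD).mul ((hq.sub hw).pow 5)).mul ((hp.sub hq).pow 2)).mul hG
  · exact (hA.mul ((hq.sub hw).pow 5)).mul hG

end hom

theorem Fpoly_hom (K : Type u) [Field K] (i : Fin 4) : (Fpoly K i).IsHomogeneous 26 :=
  hom_cF (isHomogeneous_X _ _) (isHomogeneous_X _ _) (isHomogeneous_X _ _)
    (isHomogeneous_X _ _) i

/-- one step of the orbit of a nondegenerate triple -/
theorem NT.step {M : Type*} [Field M] [DecidableEq M] {s : M} {A B C : (Wc s).Point}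
    {x₁ y₁ x₂ y₂ x₃ y₃ X₁ Y₁ X₂ Y₂ X₃ Y₃ : M} (h : NT s A B C x₁ y₁ x₂ y₂ x₃ y₃)
    (h' : NT s A (B + A) (C + B) X₁ Y₁ X₂ Y₂ X₃ Y₃) :
    ∃ κ : M, κ ≠ 0 ∧ ∀ i, cF (vec x₁ y₁ x₂ y₂ x₃ y₃ 0) (vec x₁ y₁ x₂ y₂ x₃ y₃ 1)
      (vec x₁ y₁ x₂ y₂ x₃ y₃ 2) (vec x₁ y₁ x₂ y₂ x₃ y₃ 3) i = κ * vec X₁ Y₁ X₂ Y₂ X₃ Y₃ i := by
  obtain ⟨e1, e2⟩ := h'.hA.uniq h.hA
  subst e1
  subst e2
  have hx12 := sub_ne_zero.2 h.x12
  have hx23 := sub_ne_zero.2 h.x23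
  obtain ⟨l, hl⟩ : ∃ l, l = (Y₁ - y₂) / (X₁ - x₂) := ⟨_, rfl⟩
  have hl' : l * (X₁ - x₂) = Y₁ - y₂ := by rw [hl]; field_simp
  obtain ⟨m, hm⟩ : ∃ m, m = (y₂ - y₃) / (x₂ - x₃) := ⟨_, rfl⟩
  have hm' : m * (x₂ - x₃) = y₂ - y₃ := by rw [hm]; field_simp
  have a1 := h.hA.add h.hB h.x12 l _ _ hl rfl rfl
  have a2 := h.hB.add h.hC h.x23 m _ _ hm rfl rfl
  rw [add_comm] at a1 a2
  obtain ⟨e3, e4⟩ := h'.hB.uniq a1
  obtain ⟨e5, e6⟩ := h'.hC.uniq a2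
  refine ⟨_, ?_, fun i => step_alg h.hA.eqn h.hB.eqn h.hC.eqn X₂ Y₂ X₃ Y₃ ?_ ?_ ?_ ?_ i⟩
  · have h1 : Y₁ - y₂ ≠ 0 := sub_ne_zero.2 h.y12
    have h2 : Y₁ - y₃ ≠ 0 := sub_ne_zero.2 h.y13
    have h3 : y₃ - y₂ ≠ 0 := sub_ne_zero.2 h.y23.symm
    have h4 := h.x3
    positivity
  · rw [e3]
    linear_combination (l * (X₁ - x₂) + (Y₁ - y₂)) * hl'
  · rw [e4, ← e3]
    linear_combination (X₂ - X₁) * hl'
  · rw [e5]
    linear_combination (m * (x₂ - x₃) + (y₂ - y₃)) * hm'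
  · rw [e6, ← e5]
    linear_combination (X₃ - x₂) * hm'

/-- evaluation of the iterates of a reduced form of the map along an orbit -/
theorem orbit_eval {K : Type u} [Field K] {M : Type*} [Field M] [Algebra K M] [DecidableEq M]
    {s : M} {A B C : (Wc s).Point} {x₁ y₁ x₂ y₂ x₃ y₃ : ℕ → M}
    (hT : ∀ n, NT s (orb A B C n).1 (orb A B C n).2.1 (orb A B C n).2.2
      (x₁ n) (y₁ n) (x₂ n) (y₂ n) (x₃ n) (y₃ n))
    {G : Fin 4 → MvPolynomial (Fin 4) K} {H : MvPolynomial (Fin 4) K} {d : ℕ}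
    (hG : ∀ i, (G i).IsHomogeneous d) (hF : ∀ i, Fpoly K i = H * G i) (n : ℕ) :
    ∃ ν : M, ν ≠ 0 ∧ ∀ i,
      aeval (vec (x₁ 0) (y₁ 0) (x₂ 0) (y₂ 0) (x₃ 0) (y₃ 0)) (iter G n i) =
        ν * vec (x₁ n) (y₁ n) (x₂ n) (y₂ n) (x₃ n) (y₃ n) i := by
  induction n with
  | zero => exact ⟨1, one_ne_zero, fun i => by
      rw [one_mul]
      exact aeval_X _ _⟩
  | succ n ih =>
    obtain ⟨ν, hν, ih⟩ := ih
    obtain ⟨κ, hκ, hs⟩ := (hT n).step (hT (n+1))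
    obtain ⟨v, hv⟩ : ∃ v, v = vec (x₁ n) (y₁ n) (x₂ n) (y₂ n) (x₃ n) (y₃ n) := ⟨_, rfl⟩
    obtain ⟨v', hv'⟩ : ∃ v, v = vec (x₁ (n+1)) (y₁ (n+1)) (x₂ (n+1)) (y₂ (n+1)) (x₃ (n+1))
      (y₃ (n+1)) := ⟨_, rfl⟩
    obtain ⟨v0, hv0⟩ : ∃ v, v = vec (x₁ 0) (y₁ 0) (x₂ 0) (y₂ 0) (x₃ 0) (y₃ 0) := ⟨_, rfl⟩
    rw [← hv, ← hv'] at hs
    rw [← hv, ← hv0] at ih
    rw [← hv', ← hv0]
    have h1 : ∀ i, aeval v H * aeval v (G i) = κ * v' i := by
      intro i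
      rw [← map_mul, ← hF i, aeval_Fpoly]
      exact hs i
    have h2 : v' 0 ≠ 0 := by
      rw [hv']
      simp only [vec, Matrix.cons_val_zero]
      exact mul_ne_zero (hT (n+1)).x3 (sub_ne_zero.2 (hT (n+1)).y12)
    have h3 : aeval v H ≠ 0 := by
      intro h
      have := h1 0
      rw [h, zero_mul] at this
      exact mul_ne_zero hκ h2 this.symm
    refine ⟨ν ^ d * (κ / aeval v H), by positivity, fun i => ?_⟩
    have h4 : aeval v0 (iter G (n+1) i) = aeval (fun j => ν * v j) (G i) := by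
      have : iter G (n+1) i = bind₁ (iter G n) (G i) := rfl
      rw [this, bind₁, ← AlgHom.comp_apply, comp_aeval]
      congr 2
      funext j
      exact ih j
    rw [h4, ff_scale (hG i)]
    have h5 : aeval v (G i) = κ / aeval v H * v' i := by
      have := h1 i
      field_simp
      linear_combination this
    rw [h5]
    ring

/-- the same for the reduced forms of the iterates -/
theorem orbit_eval_red {K : Type u} [Field K] {M : Type*} [Field M] [Algebra K M] [DecidableEq M]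
    {s : M} {A B C : (Wc s).Point} {x₁ y₁ x₂ y₂ x₃ y₃ : ℕ → M}
    (hT : ∀ n, NT s (orb A B C n).1 (orb A B C n).2.1 (orb A B C n).2.2
      (x₁ n) (y₁ n) (x₂ n) (y₂ n) (x₃ n) (y₃ n))
    {G : Fin 4 → MvPolynomial (Fin 4) K} {H : MvPolynomial (Fin 4) K} {d : ℕ}
    (hG : ∀ i, (G i).IsHomogeneous d) (hF : ∀ i, Fpoly K i = H * G i) (n : ℕ)
    {g : Fin 4 → MvPolynomial (Fin 4) K} {c : MvPolynomial (Fin 4) K}
    (hg : ∀ i, iter G n i = c * g i) :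
    ∃ ν : M, ν ≠ 0 ∧ ∀ i,
      aeval (vec (x₁ 0) (y₁ 0) (x₂ 0) (y₂ 0) (x₃ 0) (y₃ 0)) (g i) =
        ν * vec (x₁ n) (y₁ n) (x₂ n) (y₂ n) (x₃ n) (y₃ n) i := by
  obtain ⟨ν, hν, h⟩ := orbit_eval hT hG hF n
  obtain ⟨v0, hv0⟩ : ∃ v, v = vec (x₁ 0) (y₁ 0) (x₂ 0) (y₂ 0) (x₃ 0) (y₃ 0) := ⟨_, rfl⟩
  obtain ⟨v, hv⟩ : ∃ v, v = vec (x₁ n) (y₁ n) (x₂ n) (y₂ n) (x₃ n) (y₃ n) := ⟨_, rfl⟩
  rw [← hv, ← hv0] at h
  rw [← hv, ← hv0]
  have h1 : ∀ i, aeval v0 c * aeval v0 (g i) = ν * v i := by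
    intro i
    rw [← map_mul, ← hg i]
    exact h i
  have h2 : v 0 ≠ 0 := by
    rw [hv]
    simp only [vec, Matrix.cons_val_zero]
    exact mul_ne_zero (hT n).x3 (sub_ne_zero.2 (hT n).y12)
  have h3 : aeval v0 c ≠ 0 := by
    intro h
    have := h1 0
    rw [h, zero_mul] at this
    exact mul_ne_zero hν h2 this.symm
  refine ⟨ν / aeval v0 c, by positivity, fun i => ?_⟩
  have := h1 i
  field_simp
  linear_combination this

end Pool.Agent.TH146
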