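import Mathlib
import Pool.Agent.TH146.Fpoly

/-! The generic triple of points, and dominance of the map. -/

set_option autoImplicit false
set_option linter.unusedSectionVars false

namespace Pool.Agent.TH146

open MvPolynomial Pool.Agent.Helper993.CS

universe u

section tr

variable {L : Type*} [Field L] (c p q : L)

def tR : L := ((1 - c) * p ^ 3 + c * q ^ 3 - 1) / (c * (1 - c))
def tY₁ : L := ((p ^ 3 - q ^ 3) * tR c p q + tR c p q ^ 2) / 2
def tY₂ : L := tY₁ c p q - tR c p q ^ 2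
def tY₃ : L := tY₁ c p q - c * tR c p q ^ 2
def tS : L := tY₁ c p q ^ 2 - (p * tR c p q) ^ 3

variable {c p q}

theorem t_eq1 : tY₁ c p q ^ 2 = (p * tR c p q) ^ 3 + tS c p q := by
  unfold tS; ring

theorem t_eq2 (h2 : (2 : L) ≠ 0) : tY₂ c p q ^ 2 = (q * tR c p q) ^ 3 + tS c p q := by
  have h : 2 * tY₁ c p q = (p ^ 3 - q ^ 3) * tR c p q + tR c p q ^ 2 := by
    unfold tY₁; field_simp
  unfold tY₂ tS
  linear_combination (-tR c p q ^ 2) * h

theorem t_eq3 (h2 : (2 : L) ≠ 0) (hc : c * (1 - c) ≠ 0) :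
    tY₃ c p q ^ 2 = (tR c p q) ^ 3 + tS c p q := by
  have h : 2 * tY₁ c p q = (p ^ 3 - q ^ 3) * tR c p q + tR c p q ^ 2 := by
    unfold tY₁; field_simp
  have h' : c * (1 - c) * tR c p q = (1 - c) * p ^ 3 + c * q ^ 3 - 1 := by
    unfold tR
    rw [mul_div_assoc', mul_comm, mul_div_assoc, div_self hc, mul_one]
  unfold tY₃ tS
  linear_combination (-c * tR c p q ^ 2) * h - tR c p q ^ 3 * h'

theorem t_vec (i : Fin 4) : vec (p * tR c p q) (tY₁ c p q) (q * tR c p q) (tY₂ c p q)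
    (tR c p q) (tY₃ c p q) i = tR c p q ^ 3 * (![1, c, p, q] : Fin 4 → L) i := by
  fin_cases i
  · simp only [vec, Fin.zero_eta, Matrix.cons_val_zero]
    unfold tY₂; ring
  · simp only [vec, Fin.mk_one, Matrix.cons_val_one, Matrix.cons_val_zero]
    unfold tY₃; ring
  · simp only [vec, Fin.reduceFinMk, Matrix.cons_val]
    unfold tY₂; ring
  · simp only [vec, Fin.reduceFinMk, Matrix.cons_val]
    unfold tY₂; ring

end tr

section spec

variable {K : Type u} [Field K]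

/-- the field of rational functions in three variables -/
abbrev F3 (K : Type u) [Field K] : Type u := FractionRing (MvPolynomial (Fin 3) K)

/-- the generators -/
noncomputable def gc (K : Type u) [Field K] : F3 K := algebraMap (MvPolynomial (Fin 3) K) _ (X 0)
noncomputable def gp (K : Type u) [Field K] : F3 K := algebraMap (MvPolynomial (Fin 3) K) _ (X 1)
noncomputable def gq (K : Type u) [Field K] : F3 K := algebraMap (MvPolynomial (Fin 3) K) _ (X 2)

theorem Sp_gc (v : Fin 3 → K) : Sp (eval v) (gc K) (v 0) := by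
  have := Sp.of (M := F3 K) (ev := eval v) (X 0)
  rwa [eval_X] at this
theorem Sp_gp (v : Fin 3 → K) : Sp (eval v) (gp K) (v 1) := by
  have := Sp.of (M := F3 K) (ev := eval v) (X 1)
  rwa [eval_X] at this
theorem Sp_gq (v : Fin 3 → K) : Sp (eval v) (gq K) (v 2) := by
  have := Sp.of (M := F3 K) (ev := eval v) (X 2)
  rwa [eval_X] at this

theorem Sp_tR (v : Fin 3 → K) (hc : v 0 * (1 - v 0) ≠ 0) :
    Sp (eval v) (tR (gc K) (gp K) (gq K)) (tR (v 0) (v 1) (v 2)) := by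
  have h1 := Sp.one (M := F3 K) (ev := eval v)
  have hN := (((h1.sub (Sp_gc v)).mul ((Sp_gp v).pow 3)).add
    ((Sp_gc v).mul ((Sp_gq v).pow 3))).sub h1
  have hD := (Sp_gc v).mul (h1.sub (Sp_gc v))
  exact hN.div hD hc

theorem Sp_tY₁ [CharZero K] (v : Fin 3 → K) (hc : v 0 * (1 - v 0) ≠ 0) :
    Sp (eval v) (tY₁ (gc K) (gp K) (gq K)) (tY₁ (v 0) (v 1) (v 2)) := by
  have h2 := Sp.ofNat (M := F3 K) (ev := eval v) 2
  exact ((((Sp_gp v).pow 3).sub ((Sp_gq v).pow 3)).mul (Sp_tR v hc)).add ((Sp_tR v hc).pow 2)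
    |>.div h2 two_ne_zero

theorem Sp_tY₂ [CharZero K] (v : Fin 3 → K) (hc : v 0 * (1 - v 0) ≠ 0) :
    Sp (eval v) (tY₂ (gc K) (gp K) (gq K)) (tY₂ (v 0) (v 1) (v 2)) :=
  (Sp_tY₁ v hc).sub ((Sp_tR v hc).pow 2)

theorem Sp_tY₃ [CharZero K] (v : Fin 3 → K) (hc : v 0 * (1 - v 0) ≠ 0) :
    Sp (eval v) (tY₃ (gc K) (gp K) (gq K)) (tY₃ (v 0) (v 1) (v 2)) :=
  (Sp_tY₁ v hc).sub ((Sp_gc v).mul ((Sp_tR v hc).pow 2))

/-- the curve -/
noncomputable abbrev gs (K : Type u) [Field K] : F3 K := tS (gc K) (gp K) (gq K)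

/-- specialisation of the generic triple -/
theorem gen_Zp [CharZero K] {A B C : (Wc (gs K)).Point}
    (hA : Has A (gp K * tR (gc K) (gp K) (gq K)) (tY₁ (gc K) (gp K) (gq K)))
    (hB : Has B (gq K * tR (gc K) (gp K) (gq K)) (tY₂ (gc K) (gp K) (gq K)))
    (hC : Has C (tR (gc K) (gp K) (gq K)) (tY₃ (gc K) (gp K) (gq K)))
    (v : Fin 3 → K) (hc : v 0 * (1 - v 0) ≠ 0) (a b c : K)
    (h1 : v 1 * tR (v 0) (v 1) (v 2) = a⁻¹ ^ 2) (h2 : v 2 * tR (v 0) (v 1) (v 2) = b⁻¹ ^ 2)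
    (h3 : tR (v 0) (v 1) (v 2) = c⁻¹ ^ 2) (h4 : tY₁ (v 0) (v 1) (v 2) = a⁻¹ ^ 3)
    (h5 : tY₂ (v 0) (v 1) (v 2) = b⁻¹ ^ 3) (h6 : tY₃ (v 0) (v 1) (v 2) = c⁻¹ ^ 3) :
    Zp (eval v) A a ∧ Zp (eval v) B b ∧ Zp (eval v) C c := by
  refine ⟨⟨_, _, hA, ?_, ?_⟩, ⟨_, _, hB, ?_, ?_⟩, ⟨_, _, hC, ?_, ?_⟩⟩
  · rw [← h1]; exact (Sp_gp v).mul (Sp_tR v hc)
  · rw [← h4]; exact Sp_tY₁ v hc
  · rw [← h2]; exact (Sp_gq v).mul (Sp_tR v hc)
  · rw [← h5]; exact Sp_tY₂ v hc
  · rw [← h3]; exact Sp_tR v hc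
  · rw [← h6]; exact Sp_tY₃ v hc

/-- the first base point: parameters proportional to `2, 3, 1` -/
noncomputable def b1 (K : Type u) [Field K] : Fin 3 → K := ![-189 / 19, 1 / 4, 1 / 9]

/-- the second base point: parameters proportional to `2, 3, 4` -/
noncomputable def b2 (K : Type u) [Field K] : Fin 3 → K := ![189 / 152, 4, 16 / 9]

theorem b1_c [CharZero K] : b1 K 0 * (1 - b1 K 0) ≠ 0 := by
  simp only [b1, Matrix.cons_val_zero]; norm_num

theorem b2_c [CharZero K] : b2 K 0 * (1 - b2 K 0) ≠ 0 := by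
  simp only [b2, Matrix.cons_val_zero]; norm_num

theorem gen_Zp1 [CharZero K] {A B C : (Wc (gs K)).Point}
    (hA : Has A (gp K * tR (gc K) (gp K) (gq K)) (tY₁ (gc K) (gp K) (gq K)))
    (hB : Has B (gq K * tR (gc K) (gp K) (gq K)) (tY₂ (gc K) (gp K) (gq K)))
    (hC : Has C (tR (gc K) (gp K) (gq K)) (tY₃ (gc K) (gp K) (gq K))) :
    Zp (eval (b1 K)) A (((2 : ℕ) : K) * (216 / 19)) ∧
    Zp (eval (b1 K)) B (((3 : ℕ) : K) * (216 / 19)) ∧
    Zp (eval (b1 K)) C (((1 : ℕ) : K) * (216 / 19)) := by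
  refine gen_Zp hA hB hC (b1 K) b1_c _ _ _ ?_ ?_ ?_ ?_ ?_ ?_ <;>
  · simp only [b1, Matrix.cons_val_zero, Matrix.cons_val_one, Matrix.cons_val, tR, tY₁, tY₂, tY₃]
    norm_num

theorem gen_Zp2 [CharZero K] {A B C : (Wc (gs K)).Point}
    (hA : Has A (gp K * tR (gc K) (gp K) (gq K)) (tY₁ (gc K) (gp K) (gq K)))
    (hB : Has B (gq K * tR (gc K) (gp K) (gq K)) (tY₂ (gc K) (gp K) (gq K)))
    (hC : Has C (tR (gc K) (gp K) (gq K)) (tY₃ (gc K) (gp K) (gq K))) :
    Zp (eval (b2 K)) A ((2 : K) * (27 / 608)) ∧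
    Zp (eval (b2 K)) B ((3 : K) * (27 / 608)) ∧
    Zp (eval (b2 K)) C ((4 : K) * (27 / 608)) := by
  refine gen_Zp hA hB hC (b2 K) b2_c _ _ _ ?_ ?_ ?_ ?_ ?_ ?_ <;>
  · simp only [b2, Matrix.cons_val_zero, Matrix.cons_val_one, Matrix.cons_val, tR, tY₁, tY₂, tY₃]
    norm_num

theorem gr_ne [CharZero K] : tR (gc K) (gp K) (gq K) ≠ 0 := by
  refine (Sp_tR (b1 K) b1_c).ne_zero ?_
  simp only [b1, Matrix.cons_val_zero, Matrix.cons_val_one, Matrix.cons_val, tR]
  norm_num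

theorem gc_ne : gc K * (1 - gc K) ≠ 0 := by
  have hinj : Function.Injective (algebraMap (MvPolynomial (Fin 3) K) (F3 K)) :=
    IsFractionRing.injective _ _
  refine mul_ne_zero ?_ ?_
  · intro h
    have := hinj (h.trans (map_zero _).symm)
    exact X_ne_zero (R := K) (0 : Fin 3) this
  · intro h
    have h1 : algebraMap (MvPolynomial (Fin 3) K) (F3 K) (1 - X 0) = 0 := by
      rw [map_sub, map_one]; exact h
    have h2 := hinj (h1.trans (map_zero _).symm)
    have h3 := congrArg (eval (fun _ => (0 : K))) h2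
    simp at h3

theorem gp_ne : gp K ≠ 0 := by
  intro h
  have hinj : Function.Injective (algebraMap (MvPolynomial (Fin 3) K) (F3 K)) :=
    IsFractionRing.injective _ _
  have := hinj (h.trans (map_zero _).symm)
  exact X_ne_zero (R := K) (1 : Fin 3) this

theorem gq_ne : gq K ≠ 0 := by
  intro h
  have hinj : Function.Injective (algebraMap (MvPolynomial (Fin 3) K) (F3 K)) :=
    IsFractionRing.injective _ _
  have := hinj (h.trans (map_zero _).symm)
  exact X_ne_zero (R := K) (2 : Fin 3) this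

instance [CharZero K] : CharZero (F3 K) :=
  charZero_of_injective_algebraMap (R := K) (algebraMap K (F3 K)).injective

/-- existence of the generic triple -/
theorem gen_exists [CharZero K] : ∃ A B C : (Wc (gs K)).Point,
    Has A (gp K * tR (gc K) (gp K) (gq K)) (tY₁ (gc K) (gp K) (gq K)) ∧
    Has B (gq K * tR (gc K) (gp K) (gq K)) (tY₂ (gc K) (gp K) (gq K)) ∧
    Has C (tR (gc K) (gp K) (gq K)) (tY₃ (gc K) (gp K) (gq K)) := by
  have h3 : (3 : F3 K) ≠ 0 := by norm_num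
  have hA := (ns_iff (s := gs K) (gp K * tR (gc K) (gp K) (gq K)) (tY₁ (gc K) (gp K) (gq K))).2
    ⟨t_eq1, Or.inl (mul_ne_zero h3 (pow_ne_zero _ (mul_ne_zero gp_ne gr_ne)))⟩
  have hB := (ns_iff (s := gs K) (gq K * tR (gc K) (gp K) (gq K)) (tY₂ (gc K) (gp K) (gq K))).2
    ⟨t_eq2 two_ne_zero, Or.inl (mul_ne_zero h3 (pow_ne_zero _ (mul_ne_zero gq_ne gr_ne)))⟩
  have hC := (ns_iff (s := gs K) (tR (gc K) (gp K) (gq K)) (tY₃ (gc K) (gp K) (gq K))).2
    ⟨t_eq3 two_ne_zero gc_ne, Or.inl (mul_ne_zero h3 (pow_ne_zero _ gr_ne))⟩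
  exact ⟨_, _, _, ⟨hA, rfl⟩, ⟨hB, rfl⟩, ⟨hC, rfl⟩⟩

theorem aeval_affine (P : MvPolynomial (Fin 4) K) :
    aeval (![1, gc K, gp K, gq K] : Fin 4 → F3 K) P =
      algebraMap (MvPolynomial (Fin 3) K) (F3 K)
        (aeval (Fin.cons 1 X : Fin 4 → MvPolynomial (Fin 3) K) P) := by
  have h : (algebraMap (MvPolynomial (Fin 3) K) (F3 K)) =
      (IsScalarTower.toAlgHom K (MvPolynomial (Fin 3) K) (F3 K) : _ →+* _) := rfl
  have h2 : algebraMap (MvPolynomial (Fin 3) K) (F3 K)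
        (aeval (Fin.cons 1 X : Fin 4 → MvPolynomial (Fin 3) K) P) =
      (IsScalarTower.toAlgHom K (MvPolynomial (Fin 3) K) (F3 K))
        (aeval (Fin.cons 1 X : Fin 4 → MvPolynomial (Fin 3) K) P) := rfl
  rw [h2, ← AlgHom.comp_apply, comp_aeval]
  congr 2
  funext i
  fin_cases i
  · simp
  · rfl
  · rfl
  · rfl

/-- `G` is algebraically independent -/
theorem dominant [CharZero K] {G : Fin 4 → MvPolynomial (Fin 4) K} {H : MvPolynomial (Fin 4) K}
    {d : ℕ} (hG : ∀ i, (G i).IsHomogeneous d) (hF : ∀ i, Fpoly K i = H * G i) :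
    AlgebraicIndependent K G := by
  classical
  obtain ⟨A, B, C, hA, hB, hC⟩ := gen_exists (K := K)
  obtain ⟨zA, zB, zC⟩ := gen_Zp2 hA hB hC
  have hζ : (27 / 608 : K) ≠ 0 := by norm_num
  -- the preimage
  have zB' : Zp (eval (b2 K)) (B + -A) ((1 : K) * (27 / 608)) := by
    have := zB.add zA.neg (by norm_num) (by norm_num) (by norm_num) (by norm_num)
    have e : (3 : K) * (27 / 608) + -(2 * (27 / 608)) = 1 * (27 / 608) := by ring
    rwa [e] at this
  have zC' : Zp (eval (b2 K)) (C + -B + A) ((3 : K) * (27 / 608)) := by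
    have h1 := zC.add zB.neg (by norm_num) (by norm_num) (by norm_num) (by norm_num)
    have e : (4 : K) * (27 / 608) + -(3 * (27 / 608)) = 1 * (27 / 608) := by ring
    rw [e] at h1
    have h2 := h1.add zA (by norm_num) (by norm_num) (by norm_num) (by norm_num)
    have e : (1 : K) * (27 / 608) + 2 * (27 / 608) = 3 * (27 / 608) := by ring
    rwa [e] at h2
  have hNZ : NZ (2 : K) 1 3 := by
    have := NZ.nat (K := K) (a := 2) (b := 1) (c := 3) (by norm_num) (by norm_num) (by norm_num)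
      (by norm_num) (by norm_num) (by norm_num)
    simpa using this
  have hNZ' : NZ (2 : K) 3 4 := by
    have := NZ.nat (K := K) (a := 2) (b := 3) (c := 4) (by norm_num) (by norm_num) (by norm_num)
      (by norm_num) (by norm_num) (by norm_num)
    simpa using this
  obtain ⟨X₁, Y₁, X₂, Y₂, X₃, Y₃, hN'⟩ := NT.of_Zp zA zB' zC' (hNZ.smul hζ)
  obtain ⟨x₁, y₁, x₂, y₂, x₃, y₃, hN⟩ := NT.of_Zp zA zB zC (hNZ'.smul hζ)
  have eB : (B + -A) + A = B := by abel
  have eC : (C + -B + A) + (B + -A) = C := by abel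
  obtain ⟨κ, hκ, hs⟩ := NT.step hN' (X₁ := x₁) (Y₁ := y₁) (X₂ := x₂) (Y₂ := y₂) (X₃ := x₃)
    (Y₃ := y₃) (by rw [eB, eC]; exact hN)
  obtain ⟨e1, e2⟩ := hN.hA.uniq hA
  obtain ⟨e3, e4⟩ := hN.hB.uniq hB
  obtain ⟨e5, e6⟩ := hN.hC.uniq hC
  rw [e1, e2, e3, e4, e5, e6] at hs
  obtain ⟨v, hv⟩ : ∃ v, v = vec X₁ Y₁ X₂ Y₂ X₃ Y₃ := ⟨_, rfl⟩
  rw [← hv] at hs
  -- value of `G` at `v`
  obtain ⟨μ, hμ, hGv⟩ : ∃ μ : F3 K, μ ≠ 0 ∧ ∀ i, aeval v (G i) =
      μ * (![1, gc K, gp K, gq K] : Fin 4 → F3 K) i := by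
    have h1 : ∀ i, aeval v H * aeval v (G i) =
        κ * tR (gc K) (gp K) (gq K) ^ 3 * (![1, gc K, gp K, gq K] : Fin 4 → F3 K) i := by
      intro i
      rw [← map_mul, ← hF i, aeval_Fpoly, hs i, t_vec]
      ring
    have h0 : κ * tR (gc K) (gp K) (gq K) ^ 3 ≠ 0 := mul_ne_zero hκ (pow_ne_zero _ gr_ne)
    have h3 : aeval v H ≠ 0 := by
      intro h
      have := h1 0
      rw [h, zero_mul] at this
      simp only [Matrix.cons_val_zero, mul_one] at this
      exact h0 this.symm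
    refine ⟨κ * tR (gc K) (gp K) (gq K) ^ 3 / aeval v H, div_ne_zero h0 h3, fun i => ?_⟩
    have := h1 i
    field_simp
    linear_combination this
  -- homogeneous relations
  have key : ∀ (P : MvPolynomial (Fin 4) K) (e : ℕ), P.IsHomogeneous e → aeval G P = 0 →
      P = 0 := by
    intro P e hP h0
    have h1 : aeval (fun i => μ * (![1, gc K, gp K, gq K] : Fin 4 → F3 K) i) P = 0 := by
      have h2 : aeval v (aeval G P) = 0 := by rw [h0, map_zero]
      rw [← AlgHom.comp_apply, comp_aeval] at h2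
      rw [← h2]
      congr 2
      funext i
      exact (hGv i).symm
    rw [ff_scale hP] at h1
    have h3 := (mul_eq_zero.1 h1).resolve_left (pow_ne_zero _ hμ)
    rw [aeval_affine] at h3
    have h4 := (IsFractionRing.injective (MvPolynomial (Fin 3) K) (F3 K)) (h3.trans
      (map_zero _).symm)
    exact ff_inj hP h4
  have hd : d ≠ 0 := by
    rintro rfl
    have hC : ∀ i, G i = MvPolynomial.C (coeff 0 (G i)) := fun i => by
      rw [← totalDegree_eq_zero_iff_eq_C, totalDegree_zero_iff_isHomogeneous]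
      exact hG i
    have h1 := key (MvPolynomial.C (coeff 0 (G 1)) * X 0 - MvPolynomial.C (coeff 0 (G 0)) * X 1) 1
      (((isHomogeneous_X _ _).C_mul _).sub ((isHomogeneous_X _ _).C_mul _)) (by
        rw [map_sub, map_mul, map_mul, aeval_X, aeval_X, aeval_C, aeval_C, algebraMap_eq, ← hC 0,
          ← hC 1, mul_comm, sub_self])
    have h2 := congrArg (coeff (Finsupp.single 1 1)) h1
    rw [coeff_sub, coeff_C_mul, coeff_C_mul, coeff_X, coeff_zero, coeff_X,
      if_neg (by simp [Finsupp.single_left_inj]), if_pos rfl, mul_zero, mul_one, zero_sub,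
      neg_eq_zero] at h2
    have h3 := hGv 0
    rw [hC 0, h2, map_zero, map_zero] at h3
    simp only [Matrix.cons_val_zero, mul_one] at h3
    exact hμ h3.symm
  rw [algebraicIndependent_iff]
  intro P hP
  rw [← sum_homogeneousComponent P]
  apply Finset.sum_eq_zero
  intro e he
  refine key _ e (homogeneousComponent_isHomogeneous e P) ?_
  have h1 : homogeneousComponent (d * e) (aeval G P) = 0 := by rw [hP, map_zero]
  rw [← sum_homogeneousComponent P, map_sum, map_sum] at h1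
  rw [Finset.sum_eq_single e] at h1
  · rwa [homogeneousComponent_of_mem
      ((homogeneousComponent_isHomogeneous e P).aeval G hG), if_pos rfl] at h1
  · intro b _ hb
    rw [homogeneousComponent_of_mem
      ((homogeneousComponent_isHomogeneous b P).aeval G hG), if_neg]
    intro h
    exact hb (Nat.eq_of_mul_eq_mul_left (Nat.pos_of_ne_zero hd) h.symm)
  · intro h
    exact absurd he h

end spec

end Pool.Agent.TH146
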