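import Mathlib
import Pool.Agent.TH146.Trip

/-! Heights of points over the field of rational functions in three variables. -/

set_option autoImplicit false
set_option linter.unusedSectionVars false

namespace Pool.Agent.TH146

open MvPolynomial Pool.Agent.Helper993.CS

universe u

variable {K : Type u} [Field K]

/-- `x` is a quotient of polynomials of total degree at most `D` -/
def Hd (D : ℕ) (x : F3 K) : Prop :=
  ∃ a b : MvPolynomial (Fin 3) K, b ≠ 0 ∧ a.totalDegree ≤ D ∧ b.totalDegree ≤ D ∧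
    x * algebraMap (MvPolynomial (Fin 3) K) (F3 K) b =
      algebraMap (MvPolynomial (Fin 3) K) (F3 K) a

theorem algF_ne {b : MvPolynomial (Fin 3) K} (hb : b ≠ 0) :
    algebraMap (MvPolynomial (Fin 3) K) (F3 K) b ≠ 0 := fun h =>
  hb ((IsFractionRing.injective (MvPolynomial (Fin 3) K) (F3 K)) (h.trans (map_zero _).symm))

theorem Hd.exists (x : F3 K) : ∃ D, Hd D x := by
  obtain ⟨a, b, hb, rfl⟩ := IsFractionRing.div_surjective (A := MvPolynomial (Fin 3) K) x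
  have hb0 : b ≠ 0 := nonZeroDivisors.ne_zero hb
  refine ⟨max a.totalDegree b.totalDegree, a, b, hb0, le_max_left _ _, le_max_right _ _, ?_⟩
  exact div_mul_cancel₀ _ (algF_ne hb0)

theorem Hd.mono {D E : ℕ} {x : F3 K} (h : Hd D x) (hDE : D ≤ E) : Hd E x := by
  obtain ⟨a, b, hb, h1, h2, h3⟩ := h
  exact ⟨a, b, hb, h1.trans hDE, h2.trans hDE, h3⟩

theorem Hd.nat (n : ℕ) : Hd 0 (n : F3 K) := by
  refine ⟨C (n : K), 1, one_ne_zero, (totalDegree_C _).le, totalDegree_one.le, ?_⟩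
  rw [map_one, mul_one, map_natCast, map_natCast]

theorem Hd.zero : Hd 0 (0 : F3 K) := by
  have := Hd.nat (K := K) 0
  simpa using this

theorem Hd.neg {D : ℕ} {x : F3 K} (h : Hd D x) : Hd D (-x) := by
  obtain ⟨a, b, hb, h1, h2, h3⟩ := h
  refine ⟨-a, b, hb, by rwa [totalDegree_neg], h2, ?_⟩
  rw [map_neg, ← h3, neg_mul]

theorem Hd.add {D E : ℕ} {x y : F3 K} (hx : Hd D x) (hy : Hd E y) : Hd (D + E) (x + y) := by
  obtain ⟨a, b, hb, h1, h2, h3⟩ := hx
  obtain ⟨c, d, hd, h4, h5, h6⟩ := hy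
  refine ⟨a * d + c * b, b * d, mul_ne_zero hb hd, ?_, ?_, ?_⟩
  · refine (totalDegree_add _ _).trans (max_le ?_ ?_)
    · refine (totalDegree_mul _ _).trans (by omega)
    · refine (totalDegree_mul _ _).trans (by omega)
  · refine (totalDegree_mul _ _).trans (by omega)
  · simp only [map_add, map_mul]
    rw [← h3, ← h6]
    ring

theorem Hd.sub {D E : ℕ} {x y : F3 K} (hx : Hd D x) (hy : Hd E y) : Hd (D + E) (x - y) := by
  rw [sub_eq_add_neg]
  exact hx.add hy.neg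

theorem Hd.mul {D E : ℕ} {x y : F3 K} (hx : Hd D x) (hy : Hd E y) : Hd (D + E) (x * y) := by
  obtain ⟨a, b, hb, h1, h2, h3⟩ := hx
  obtain ⟨c, d, hd, h4, h5, h6⟩ := hy
  refine ⟨a * c, b * d, mul_ne_zero hb hd, ?_, ?_, ?_⟩
  · refine (totalDegree_mul _ _).trans (by omega)
  · refine (totalDegree_mul _ _).trans (by omega)
  · simp only [map_mul]
    rw [← h3, ← h6]
    ring

theorem Hd.inv {D : ℕ} {x : F3 K} (hx : Hd D x) : Hd D x⁻¹ := by
  by_cases h0 : x = 0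
  · rw [h0, inv_zero]
    exact Hd.zero.mono (Nat.zero_le _)
  obtain ⟨a, b, hb, h1, h2, h3⟩ := hx
  refine ⟨b, a, ?_, h2, h1, ?_⟩
  · rintro rfl
    rw [map_zero] at h3
    exact mul_ne_zero h0 (algF_ne hb) h3
  · rw [← h3, ← mul_assoc, inv_mul_cancel₀ h0, one_mul]

theorem Hd.div {D E : ℕ} {x y : F3 K} (hx : Hd D x) (hy : Hd E y) : Hd (D + E) (x / y) := by
  rw [div_eq_mul_inv]
  exact hx.mul hy.inv

variable {s : F3 K}

/-- the point `A` is zero or has coordinates of height at most `D` -/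
def PH (D : ℕ) (A : (Wc s).Point) : Prop :=
  A = 0 ∨ ∃ x y : F3 K, Has A x y ∧ Hd D x ∧ Hd D y

theorem PH.mono {D E : ℕ} {A : (Wc s).Point} (h : PH D A) (hDE : D ≤ E) : PH E A := by
  rcases h with h | ⟨x, y, h, hx, hy⟩
  · exact Or.inl h
  · exact Or.inr ⟨x, y, h, hx.mono hDE, hy.mono hDE⟩

theorem PH.get {D : ℕ} {A : (Wc s).Point} (h : PH D A) {x y : F3 K} (hA : Has A x y) :
    Hd D x ∧ Hd D y := by
  rcases h with h | ⟨x', y', h, hx, hy⟩
  · obtain ⟨h', e⟩ := hA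
    rw [e] at h
    exact absurd h (by exact WeierstrassCurve.Affine.Point.some_ne_zero h')
  · obtain ⟨rfl, rfl⟩ := h.uniq hA
    exact ⟨hx, hy⟩

theorem PH.exists {A : (Wc s).Point} {x y : F3 K} (hA : Has A x y) : ∃ D, PH D A := by
  obtain ⟨D, hD⟩ := Hd.exists x
  obtain ⟨E, hE⟩ := Hd.exists y
  exact ⟨max D E, Or.inr ⟨x, y, hA, hD.mono (le_max_left _ _), hE.mono (le_max_right _ _)⟩⟩

theorem PH.add [DecidableEq (F3 K)] {D : ℕ} {A B : (Wc s).Point} (hA : PH D A) (hB : PH D B) :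
    PH (16 * D) (A + B) := by
  rcases add_cases A B with h | ⟨-, h⟩ | ⟨-, h⟩ | ⟨x₁, y₁, x₂, y₂, h1, h2, h3⟩
  · exact Or.inl h
  · rw [h]; exact hB.mono (by omega)
  · rw [h]; exact hA.mono (by omega)
  · obtain ⟨hx1, hy1⟩ := hA.get h1
    obtain ⟨hx2, hy2⟩ := hB.get h2
    rcases h3 with ⟨-, h4⟩ | ⟨-, -, h4⟩
    · have hl := (hy1.sub hy2).div (hx1.sub hx2)
      have hl2 := hl.mul hl
      rw [← pow_two] at hl2
      have hX := (hl2.sub hx1).sub hx2
      have hY := ((hl.mul (hX.sub hx1)).add hy1).neg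
      exact Or.inr ⟨_, _, h4 _ _ _ rfl rfl rfl, hX.mono (by omega), hY.mono (by omega)⟩
    · have hx11 := hx1.mul hx1
      rw [← pow_two] at hx11
      have hl := (((Hd.nat 3).mul hx11)).div ((Hd.nat 2).mul hy1)
      rw [Nat.cast_ofNat, Nat.cast_ofNat] at hl
      have hl2 := hl.mul hl
      rw [← pow_two] at hl2
      have hX := (hl2.sub hx1).sub hx1
      have hY := ((hl.mul (hX.sub hx1)).add hy1).neg
      exact Or.inr ⟨_, _, h4 _ _ _ rfl rfl rfl, hX.mono (by omega), hY.mono (by omega)⟩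

theorem PH.nsmul [DecidableEq (F3 K)] {D : ℕ} {A : (Wc s).Point} (hA : PH D A) (m : ℕ) :
    PH (m ^ 8 * D) (m • A) := by
  induction m using Nat.strong_induction_on with
  | _ m ih =>
    rcases Nat.eq_zero_or_pos m with rfl | hm
    · exact Or.inl (zero_nsmul _)
    obtain ⟨k, hk | hk⟩ := Nat.even_or_odd' m
    · have hk1 : 1 ≤ k := by omega
      have h := ih k (by omega)
      have h2 := h.add h
      rw [← two_nsmul, ← mul_nsmul', ← hk] at h2
      refine h2.mono ?_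
      rw [hk, mul_pow]
      nlinarith [Nat.zero_le (k ^ 8 * D)]
    · rcases Nat.eq_zero_or_pos k with rfl | hk1
      · have : m = 1 := by omega
        subst this
        rw [one_pow, one_mul, one_nsmul]
        exact hA
      have h := ih k (by omega)
      have h2 := h.add h
      rw [← two_nsmul, ← mul_nsmul'] at h2
      have h5 : 1 ≤ k ^ 8 := Nat.one_le_pow _ _ hk1
      have hA' : PH (16 * (k ^ 8 * D)) A := hA.mono (by nlinarith)
      have h3 := h2.add hA'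
      rw [← succ_nsmul, ← hk] at h3
      refine h3.mono ?_
      have h4 : (2 * k) ^ 8 ≤ m ^ 8 := Nat.pow_le_pow_left (by omega) 8
      have h6 : (2 * k) ^ 8 = 256 * k ^ 8 := by ring
      calc 16 * (16 * (k ^ 8 * D)) = (256 * k ^ 8) * D := by ring
        _ ≤ m ^ 8 * D := Nat.mul_le_mul_right _ (h6 ▸ h4)

theorem PH.orb [DecidableEq (F3 K)] {D : ℕ} {A B C : (Wc s).Point} (hA : PH D A) (hB : PH D B)
    (hC : PH D C) {n : ℕ} (hn : 1 ≤ n) : PH (256 * n ^ 16 * D) (orb A B C n).1 ∧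
      PH (256 * n ^ 16 * D) (orb A B C n).2.1 ∧ PH (256 * n ^ 16 * D) (orb A B C n).2.2 := by
  rw [orb_eq]
  have h8 : 1 ≤ n ^ 8 := Nat.one_le_pow _ _ hn
  have h816 : n ^ 8 ≤ n ^ 16 := Nat.pow_le_pow_right hn (by norm_num)
  have e1 : D ≤ n ^ 16 * D := Nat.le_mul_of_pos_left _ (by omega)
  refine ⟨hA.mono ?_, ?_, ?_⟩
  · nlinarith
  · have h := (hB.mono (E := n ^ 8 * D) (Nat.le_mul_of_pos_left _ h8)).add (hA.nsmul n)
    refine h.mono ?_
    have : n ^ 8 * D ≤ n ^ 16 * D := Nat.mul_le_mul_right _ h816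
    nlinarith
  · have hc : (n.choose 2) ^ 8 * D ≤ n ^ 16 * D := by
      refine Nat.mul_le_mul_right _ ?_
      have h1 : n.choose 2 ≤ n ^ 2 := Nat.choose_le_pow n 2
      calc (n.choose 2) ^ 8 ≤ (n ^ 2) ^ 8 := Nat.pow_le_pow_left h1 8
        _ = n ^ 16 := by ring
    have h1 := (hC.mono (E := n ^ 8 * D) (Nat.le_mul_of_pos_left _ h8)).add (hB.nsmul n)
    have h2 := hA.nsmul (n.choose 2)
    have h3 : n ^ 8 * D ≤ n ^ 16 * D := Nat.mul_le_mul_right _ h816
    have h4 := (h1.mono (E := 16 * (n ^ 16 * D)) (by omega)).add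
      (h2.mono (E := 16 * (n ^ 16 * D)) (by omega))
    exact h4.mono (by nlinarith)

/-- homogenisation in a given degree -/
theorem homog_deg {N : ℕ} (Q : MvPolynomial (Fin N) K) (m : ℕ) (hm : Q.totalDegree ≤ m) :
    ∃ R : MvPolynomial (Fin (N+1)) K, R.IsHomogeneous m ∧
      aeval (Fin.cons 1 X : Fin (N+1) → MvPolynomial (Fin N) K) R = Q := by
  refine ⟨∑ s ∈ Q.support, monomial (Finsupp.cons (m - s.degree) s) (coeff s Q), ?_, ?_⟩
  · apply IsHomogeneous.sum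
    intro s hs
    apply isHomogeneous_monomial
    have h1 : s.degree ≤ Q.totalDegree := le_totalDegree hs
    rw [Finsupp.degree_eq_sum, Fin.sum_univ_succ]
    simp only [Finsupp.cons_zero, Finsupp.cons_succ]
    rw [← Finsupp.degree_eq_sum]
    omega
  · rw [map_sum]
    conv_rhs => rw [Q.as_sum]
    apply Finset.sum_congr rfl
    intro s hs
    rw [aeval_monomial, Finsupp.prod_fintype _ _ (by simp), Fin.prod_univ_succ]
    simp only [Finsupp.cons_zero, Finsupp.cons_succ, Fin.cons_zero, Fin.cons_succ, one_pow, one_mul]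
    rw [monomial_eq, Finsupp.prod_fintype _ _ (by simp)]
    rfl

/-- the degree of a reduced tuple is at most four times the height of its ratios -/
theorem deg_le_of_ratio [CharZero K] {g : Fin 4 → MvPolynomial (Fin 4) K} {e D : ℕ}
    (hg : ∀ i, (g i).IsHomogeneous e) (hr : ∀ q, (∀ i, q ∣ g i) → IsUnit q) (hg0 : g 0 ≠ 0)
    (hD : ∀ i, ∃ r : F3 K, Hd D r ∧ aeval (![1, gc K, gp K, gq K] : Fin 4 → F3 K) (g i) =
      r * aeval (![1, gc K, gp K, gq K] : Fin 4 → F3 K) (g 0)) : e ≤ 4 * D := by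
  classical
  have h1 : ∀ i, ∃ a b : MvPolynomial (Fin 3) K, b ≠ 0 ∧ a.totalDegree ≤ D ∧
      b.totalDegree ≤ D ∧
      aeval (Fin.cons 1 X : Fin 4 → MvPolynomial (Fin 3) K) (g i) * b =
      a * aeval (Fin.cons 1 X : Fin 4 → MvPolynomial (Fin 3) K) (g 0) := by
    intro i
    obtain ⟨r, ⟨a, b, hb, h1, h2, h3⟩, h4⟩ := hD i
    refine ⟨a, b, hb, h1, h2, ?_⟩
    apply IsFractionRing.injective (MvPolynomial (Fin 3) K) (F3 K)
    rw [map_mul, map_mul, ← h3, ← aeval_affine, ← aeval_affine, h4]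
    ring
  choose a b hb ha hbD hab using h1
  have hP : ∀ s : Finset (Fin 4), (∏ j ∈ s, b j).totalDegree ≤ s.card * D := by
    intro s
    refine (totalDegree_finsetProd _ _).trans ?_
    refine (Finset.sum_le_card_nsmul s _ D fun i _ => hbD i).trans ?_
    rw [smul_eq_mul]
  obtain ⟨T0, hT0, hT0'⟩ := homog_deg (∏ j, b j) (4 * D) (by
    have := hP Finset.univ
    simpa using this)
  have hT : ∀ i, ∃ T : MvPolynomial (Fin 4) K, T.IsHomogeneous (4 * D) ∧
      aeval (Fin.cons 1 X : Fin 4 → MvPolynomial (Fin 3) K) T =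
        a i * ∏ j ∈ Finset.univ.erase i, b j := by
    intro i
    apply homog_deg
    refine (totalDegree_mul _ _).trans ?_
    have h2 := hP (Finset.univ.erase i)
    rw [Finset.card_erase_of_mem (Finset.mem_univ i), Finset.card_univ, Fintype.card_fin] at h2
    have := ha i
    omega
  choose T hT hT' using hT
  have hT00 : T0 ≠ 0 := by
    rintro rfl
    rw [map_zero] at hT0'
    exact Finset.prod_ne_zero_iff.2 (fun i _ => hb i) hT0'.symm
  have key : ∀ i, T0 * g i = g 0 * T i := by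
    intro i
    have h2 : (T0 * g i - g 0 * T i).IsHomogeneous (4 * D + e) := by
      refine (hT0.mul (hg i)).sub ?_
      rw [add_comm (4 * D) e]
      exact (hg 0).mul (hT i)
    have h3 := ff_inj h2 (by
      rw [map_sub, map_mul, map_mul, hT0', hT', ← Finset.mul_prod_erase Finset.univ b
        (Finset.mem_univ i)]
      linear_combination (∏ j ∈ Finset.univ.erase i, b j) * hab i)
    exact sub_eq_zero.1 h3
  have hdvd : g 0 ∣ T0 := red_assoc (P := fun i => T0 * g i) (fun i => rfl) hr (g 0)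
    (fun i => ⟨T i, key i⟩)
  obtain ⟨w, hw⟩ := hdvd
  obtain ⟨p, q, hpq, hp, hq⟩ := factor_hom (hw ▸ hT0) (hw ▸ hT00)
  have := hp.inj_right (hg 0) hg0
  omega

/-- polynomial growth of the degrees -/
theorem upper [CharZero K] : ∃ C₀ : ℕ, ∀ {G : Fin 4 → MvPolynomial (Fin 4) K}
    {H : MvPolynomial (Fin 4) K} {d : ℕ}, (∀ i, (G i).IsHomogeneous d) →
    (∀ i, Fpoly K i = H * G i) → ∀ n : ℕ, 1 ≤ n → ∀ e, RedDeg (iter G n) e → e ≤ C₀ * n ^ 16 := by
  classical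
  obtain ⟨A, B, C, hA, hB, hC⟩ := gen_exists (K := K)
  obtain ⟨zA, zB, zC⟩ := gen_Zp1 hA hB hC
  have hζ : (216 / 19 : K) ≠ 0 := by norm_num
  obtain ⟨D₁, hD₁⟩ := PH.exists hA
  obtain ⟨D₂, hD₂⟩ := PH.exists hB
  obtain ⟨D₃, hD₃⟩ := PH.exists hC
  obtain ⟨D, hD⟩ : ∃ D, D = max D₁ (max D₂ D₃) := ⟨_, rfl⟩
  replace hD₁ := hD₁.mono (E := D) (by rw [hD]; exact le_max_left _ _)
  replace hD₂ := hD₂.mono (E := D) (by rw [hD]; exact le_max_of_le_right (le_max_left _ _))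
  replace hD₃ := hD₃.mono (E := D) (by rw [hD]; exact le_max_of_le_right (le_max_right _ _))
  choose x₁ y₁ x₂ y₂ x₃ y₃ hT using orb_NT hζ zA zB zC
  refine ⟨4096 * D, ?_⟩
  rintro G H d hG hF n hn e ⟨c, g, hc, hcg, hge, hgr⟩
  obtain ⟨p1, p2, p3⟩ := PH.orb hD₁ hD₂ hD₃ hn
  obtain ⟨E, hE⟩ : ∃ E, E = 256 * n ^ 16 * D := ⟨_, rfl⟩
  rw [← hE] at p1 p2 p3
  obtain ⟨a1, a2⟩ := p1.get (hT n).hA
  obtain ⟨a3, a4⟩ := p2.get (hT n).hB
  obtain ⟨a5, a6⟩ := p3.get (hT n).hC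
  obtain ⟨ν, hν, hev⟩ := orbit_eval_red hT hG hF n hcg
  have hr3 : tR (gc K) (gp K) (gq K) ^ 3 ≠ 0 := pow_ne_zero _ gr_ne
  have hv0 : vec (x₁ 0) (y₁ 0) (x₂ 0) (y₂ 0) (x₃ 0) (y₃ 0) =
      fun i => tR (gc K) (gp K) (gq K) ^ 3 * (![1, gc K, gp K, gq K] : Fin 4 → F3 K) i := by
    obtain ⟨e1, e2⟩ := (hT 0).hA.uniq hA
    obtain ⟨e3, e4⟩ := (hT 0).hB.uniq hB
    obtain ⟨e5, e6⟩ := (hT 0).hC.uniq hC
    rw [e1, e2, e3, e4, e5, e6]
    funext i
    exact t_vec i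
  have hgi : ∀ i, (tR (gc K) (gp K) (gq K) ^ 3) ^ e *
      aeval (![1, gc K, gp K, gq K] : Fin 4 → F3 K) (g i) =
      ν * vec (x₁ n) (y₁ n) (x₂ n) (y₂ n) (x₃ n) (y₃ n) i := by
    intro i
    rw [← hev i, hv0, ff_scale (hge i)]
  obtain ⟨w, hw⟩ : ∃ w, w = vec (x₁ n) (y₁ n) (x₂ n) (y₂ n) (x₃ n) (y₃ n) := ⟨_, rfl⟩
  have hw0 : w 0 = x₃ n * (y₁ n - y₂ n) := by rw [hw]; simp [vec]
  have hw1 : w 1 = x₃ n * (y₁ n - y₃ n) := by rw [hw]; simp [vec]
  have hw2 : w 2 = x₁ n * (y₁ n - y₂ n) := by rw [hw]; simp [vec]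
  have hw3 : w 3 = x₂ n * (y₁ n - y₂ n) := by rw [hw]; simp [vec]
  have hy12 : y₁ n - y₂ n ≠ 0 := sub_ne_zero.2 (hT n).y12
  have hx3 := (hT n).x3
  have hw00 : w 0 ≠ 0 := by rw [hw0]; exact mul_ne_zero hx3 hy12
  rw [← hw] at hgi
  have hg0 : g 0 ≠ 0 := by
    intro h
    have := hgi 0
    rw [h, map_zero, mul_zero] at this
    exact mul_ne_zero hν hw00 this.symm
  have hratio : ∀ i, ∃ r : F3 K, Hd (4 * E) r ∧ w i = r * w 0 := by
    intro i
    fin_cases i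
    · exact ⟨1, by simpa using (Hd.nat (K := K) 1).mono (Nat.zero_le _), (one_mul _).symm⟩
    · refine ⟨(y₁ n - y₃ n) / (y₁ n - y₂ n), ((a2.sub a6).div (a2.sub a4)).mono (by omega), ?_⟩
      simp only [Fin.mk_one]
      rw [hw0, hw1]
      field_simp
    · refine ⟨x₁ n / x₃ n, (a1.div a5).mono (by omega), ?_⟩
      simp only [Fin.reduceFinMk]
      rw [hw0, hw2]
      field_simp
    · refine ⟨x₂ n / x₃ n, (a3.div a5).mono (by omega), ?_⟩
      simp only [Fin.reduceFinMk]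
      rw [hw0, hw3]
      field_simp
  have h := deg_le_of_ratio (D := 4 * E) hge hgr hg0 (by
    intro i
    obtain ⟨r, hr, h⟩ := hratio i
    refine ⟨r, hr, ?_⟩
    have h1 : (tR (gc K) (gp K) (gq K) ^ 3) ^ e ≠ 0 := pow_ne_zero _ hr3
    apply mul_left_cancel₀ h1
    rw [hgi i, h]
    calc ν * (r * w 0) = r * (ν * w 0) := by ring
      _ = _ := by rw [← hgi 0]; ring)
  calc e ≤ 4 * (4 * E) := h
    _ = 4096 * D * n ^ 16 := by rw [hE]; ring

end Pool.Agent.TH146
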