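import Mathlib
import Pool.Agent.TH146.Fpoly

/-! Lower bound for the degrees of the iterates. -/

set_option autoImplicit false
set_option linter.unusedSectionVars false

namespace Pool.Agent.TH146

open Polynomial Pool.Agent.Helper993.CS

universe u

variable {K : Type u} [Field K]

/-- numerators and denominators of the multiples of the point -/
noncomputable def ab (K : Type u) [Field K] : ℕ → K[X] × K[X]
  | 0 => (1, 1)
  | j + 1 => ((ab K j).1 ^ 4 - 8 * X * (ab K j).1 * (ab K j).2 ^ 3,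
      4 * (ab K j).2 * ((ab K j).1 ^ 3 + X * (ab K j).2 ^ 3))

theorem ab_eval (j : ℕ) : (ab K j).1.eval 0 = 1 := by
  induction j with
  | zero => simp [ab]
  | succ j ih => simp [ab, ih]

theorem isCoprime_X_of_eval {a : K[X]} (h : a.eval 0 ≠ 0) : IsCoprime a X := by
  have h1 : a - X * a.divX = C (a.eval 0) := by
    have := a.X_mul_divX_add
    rw [coeff_zero_eq_eval_zero] at this
    linear_combination -this
  refine ⟨C (a.eval 0)⁻¹, -C (a.eval 0)⁻¹ * a.divX, ?_⟩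
  have h2 : C (a.eval 0)⁻¹ * C (a.eval 0) = (1 : K[X]) := by
    rw [← C_mul, inv_mul_cancel₀ h, C_1]
  calc C (a.eval 0)⁻¹ * a + -C (a.eval 0)⁻¹ * a.divX * X =
      C (a.eval 0)⁻¹ * (a - X * a.divX) := by ring
    _ = C (a.eval 0)⁻¹ * C (a.eval 0) := by rw [h1]
    _ = 1 := h2

theorem isCoprime_nat [CharZero K] (a : K[X]) (n : ℕ) (hn : n ≠ 0) : IsCoprime a (n : K[X]) := by
  have h : (n : K) ≠ 0 := by exact_mod_cast hn
  refine ⟨0, C (n : K)⁻¹, ?_⟩
  rw [zero_mul, zero_add, ← map_natCast C, ← C_mul, inv_mul_cancel₀ h, C_1]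

theorem ab_coprime [CharZero K] (j : ℕ) : IsCoprime (ab K j).1 (ab K j).2 := by
  induction j with
  | zero => exact isCoprime_one_left
  | succ j ih =>
    have hX := isCoprime_X_of_eval (a := (ab K j).1) (by rw [ab_eval]; exact one_ne_zero)
    simp only [ab]
    obtain ⟨a, ha⟩ : ∃ a, a = (ab K j).1 := ⟨_, rfl⟩
    obtain ⟨b, hb⟩ : ∃ b, b = (ab K j).2 := ⟨_, rfl⟩
    rw [← ha, ← hb] at ih ⊢
    rw [← ha] at hX
    have h4 : ∀ z : K[X], IsCoprime z 4 := fun z => by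
      have := isCoprime_nat z 4 (by norm_num)
      exact_mod_cast this
    have h9 : ∀ z : K[X], IsCoprime z 9 := fun z => by
      have := isCoprime_nat z 9 (by norm_num)
      exact_mod_cast this
    have e1 : a ^ 4 - 8 * X * a * b ^ 3 = a * (a ^ 3 - 8 * X * b ^ 3) := by ring
    rw [e1]
    -- the pieces
    have c1 : IsCoprime a (a ^ 3 + X * b ^ 3) := by
      have h1 : IsCoprime a (X * b ^ 3 + a * a ^ 2) := (hX.mul_right ih.pow_right).add_mul_left_right _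
      have e : X * b ^ 3 + a * a ^ 2 = a ^ 3 + X * b ^ 3 := by ring
      rwa [e] at h1
    have c2 : IsCoprime (a ^ 3 - 8 * X * b ^ 3) b := by
      have h1 : IsCoprime (a ^ 3 + b * (-8 * X * b ^ 2)) b := (ih.pow_left).add_mul_left_left _
      have e : a ^ 3 + b * (-8 * X * b ^ 2) = a ^ 3 - 8 * X * b ^ 3 := by ring
      rwa [e] at h1
    have c3 : IsCoprime (a ^ 3 - 8 * X * b ^ 3) X := by
      have h1 : IsCoprime (a ^ 3 + X * (-8 * b ^ 3)) X := (hX.pow_left).add_mul_left_left _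
      have e : a ^ 3 + X * (-8 * b ^ 3) = a ^ 3 - 8 * X * b ^ 3 := by ring
      rwa [e] at h1
    have c4 : IsCoprime (a ^ 3 - 8 * X * b ^ 3) (a ^ 3 + X * b ^ 3) := by
      have h1 : IsCoprime (a ^ 3 - 8 * X * b ^ 3) (9 * (X * b ^ 3)) :=
        (h9 _).mul_right (c3.mul_right c2.pow_right)
      have h2 := h1.add_mul_left_right 1
      have e : 9 * (X * b ^ 3) + (a ^ 3 - 8 * X * b ^ 3) * 1 = a ^ 3 + X * b ^ 3 := by ring
      rwa [e] at h2
    exact (((h4 _).mul_right ih).mul_right c1).mul_left (((h4 _).mul_right c2).mul_right c4)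

theorem natDegree_nat_mul [CharZero K] (n : ℕ) (hn : n ≠ 0) (p : K[X]) :
    ((n : K[X]) * p).natDegree = p.natDegree := by
  have h : (n : K) ≠ 0 := by exact_mod_cast hn
  rw [← map_natCast C, natDegree_C_mul h]

theorem ab_deg [CharZero K] (j : ℕ) : (ab K j).1 ≠ 0 ∧ (ab K j).2 ≠ 0 ∧
    3 * (ab K j).1.natDegree + 1 = 4 ^ j ∧ 3 * (ab K j).2.natDegree + 1 = 4 ^ j := by
  induction j with
  | zero => simp [ab]
  | succ j ih =>
    obtain ⟨ha0, hb0, h1, h2⟩ := ih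
    simp only [ab]
    obtain ⟨a, ha⟩ : ∃ a, a = (ab K j).1 := ⟨_, rfl⟩
    obtain ⟨b, hb⟩ : ∃ b, b = (ab K j).2 := ⟨_, rfl⟩
    rw [← ha] at ha0 h1
    rw [← hb] at hb0 h2
    rw [← ha, ← hb]
    have hd : a.natDegree = b.natDegree := by omega
    have e1 : (8 * X * a * b ^ 3 : K[X]) = ((8 : ℕ) : K[X]) * (X * a * b ^ 3) := by
      push_cast; ring
    have e2 : (4 * b * (a ^ 3 + X * b ^ 3) : K[X]) = ((4 : ℕ) : K[X]) * (b * (a ^ 3 + X * b ^ 3)) := by
      push_cast; ring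
    have d1 : (8 * X * a * b ^ 3 : K[X]).natDegree = 4 * b.natDegree + 1 := by
      rw [e1, natDegree_nat_mul 8 (by norm_num), natDegree_mul (mul_ne_zero X_ne_zero ha0)
        (pow_ne_zero _ hb0), natDegree_mul X_ne_zero ha0, natDegree_pow, natDegree_X]
      omega
    have d2 : (a ^ 4 : K[X]).natDegree = 4 * b.natDegree := by
      rw [natDegree_pow]; omega
    have d3 : (a ^ 4 - 8 * X * a * b ^ 3 : K[X]).natDegree = 4 * b.natDegree + 1 := by
      rw [natDegree_sub_eq_right_of_natDegree_lt (by omega), d1]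
    have d4 : (X * b ^ 3 : K[X]).natDegree = 3 * b.natDegree + 1 := by
      rw [natDegree_mul X_ne_zero (pow_ne_zero _ hb0), natDegree_pow, natDegree_X]
      omega
    have d5 : (a ^ 3 : K[X]).natDegree = 3 * b.natDegree := by
      rw [natDegree_pow]; omega
    have d6 : (a ^ 3 + X * b ^ 3 : K[X]).natDegree = 3 * b.natDegree + 1 := by
      rw [natDegree_add_eq_right_of_natDegree_lt (by omega), d4]
    have n6 : (a ^ 3 + X * b ^ 3 : K[X]) ≠ 0 := by
      intro h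
      rw [h, natDegree_zero] at d6
      omega
    have d7 : (4 * b * (a ^ 3 + X * b ^ 3) : K[X]).natDegree = 4 * b.natDegree + 1 := by
      rw [e2, natDegree_nat_mul 4 (by norm_num), natDegree_mul hb0 n6, d6]
      omega
    refine ⟨?_, ?_, ?_, ?_⟩
    · intro h
      rw [h, natDegree_zero] at d3
      omega
    · intro h
      rw [h, natDegree_zero] at d7
      omega
    · rw [d3, pow_succ]; omega
    · rw [d7, pow_succ]; omega

/-- the function field of the line -/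
abbrev F1 (K : Type u) [Field K] : Type u := FractionRing K[X]

/-- image in the function field -/
noncomputable abbrev ι (K : Type u) [Field K] : K[X] →+* F1 K := algebraMap K[X] (F1 K)

theorem ι_inj : Function.Injective (ι K) := IsFractionRing.injective K[X] (F1 K)

instance [CharZero K] : CharZero (F1 K) :=
  charZero_of_injective_algebraMap (R := K) (algebraMap K (F1 K)).injective

/-- the curve over the function field of the line -/
noncomputable abbrev es (K : Type u) [Field K] : F1 K := ι K (X * (1 + X) ^ 3)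

theorem P_exists [CharZero K] :
    ∃ P : (Wc (es K)).Point, Has P (ι K (1 + X)) (ι K ((1 + X) ^ 2)) := by
  have h3 : (3 : F1 K) ≠ 0 := by norm_num
  have h1 : ι K (1 + X) ≠ 0 := by
    intro h
    have h2 := ι_inj (h.trans (map_zero _).symm)
    have h3 := congrArg (Polynomial.eval 0) h2
    simp at h3
  have hP := (ns_iff (s := es K) (ι K (1 + X)) (ι K ((1 + X) ^ 2))).2
    ⟨by rw [← map_pow, ← map_pow, ← map_add]; congr 1; ring,
      Or.inl (mul_ne_zero h3 (pow_ne_zero _ h1))⟩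
  exact ⟨_, hP, rfl⟩

theorem ev_P [CharZero K] {P : (Wc (es K)).Point} (hP : Has P (ι K (1 + X)) (ι K ((1 + X) ^ 2))) :
    Zp (evalRingHom (0 : K)) P (((1 : ℕ) : K) * 1) := by
  refine ⟨_, _, hP, ?_, ?_⟩
  · have := Sp.of (M := F1 K) (ev := evalRingHom (0 : K)) (1 + X)
    simpa using this
  · have := Sp.of (M := F1 K) (ev := evalRingHom (0 : K)) ((1 + X) ^ 2)
    simpa using this

/-- the multiples of the point -/
theorem dbl_P [CharZero K] [DecidableEq (F1 K)] {P : (Wc (es K)).Point}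
    (hP : Has P (ι K (1 + X)) (ι K ((1 + X) ^ 2))) (j : ℕ) :
    Zp (evalRingHom (0 : K)) ((2 ^ j : ℕ) • P) (((2 ^ j : ℕ) : K) * 1) ∧
    ∃ x y : F1 K, Has ((2 ^ j : ℕ) • P) x y ∧
      x * ι K (ab K j).2 = ι K ((1 + X) * (ab K j).1) := by
  induction j with
  | zero =>
    refine ⟨by simpa using ev_P hP, _, _, by simpa using hP, ?_⟩
    simp [ab]
  | succ j ih =>
    obtain ⟨hZ, x, y, hxy, hx⟩ := ih
    have e : (2 ^ (j + 1) : ℕ) • P = (2 ^ j : ℕ) • P + (2 ^ j : ℕ) • P := by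
      rw [← add_nsmul]; congr 1; ring
    obtain ⟨x', y', hxy', hx', hy'⟩ := hZ
    obtain ⟨rfl, rfl⟩ := hxy.uniq hxy'
    have h2j : ((2 ^ j : ℕ) : K) * 1 ≠ 0 := by
      rw [mul_one]; exact_mod_cast pow_ne_zero j two_ne_zero
    refine ⟨?_, ?_⟩
    · have h := Zp.add_nat (A := (2 ^ j : ℕ) • P) (B := (2 ^ j : ℕ) • P) one_ne_zero
        ⟨x, y, hxy, hx', hy'⟩ ⟨x, y, hxy, hx', hy'⟩ (by positivity) (by positivity)
        (fun _ => rfl)
      rw [e]
      have e2 : 2 ^ (j + 1) = 2 ^ j + 2 ^ j := by ring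
      rw [e2]
      exact h
    · have hy0 : y ≠ 0 := hy'.ne_zero (pow_ne_zero _ (inv_ne_zero h2j))
      have hy2 : 2 * y ≠ 0 := mul_ne_zero two_ne_zero hy0
      obtain ⟨l, hl⟩ : ∃ l, l = 3 * x ^ 2 / (2 * y) := ⟨_, rfl⟩
      have hl' : l * (2 * y) = 3 * x ^ 2 := by rw [hl]; field_simp
      obtain ⟨Z, hZ⟩ : ∃ Z, Z = l ^ 2 - x - x := ⟨_, rfl⟩
      have hd := hxy.dbl hy2 l Z _ hl hZ rfl
      rw [e]
      refine ⟨_, _, hd, ?_⟩
      have hE := hxy.eqn
      have h1 : ι K (1 + X) ≠ 0 := by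
        intro h
        have h2 := ι_inj (h.trans (map_zero _).symm)
        have h3 := congrArg (Polynomial.eval 0) h2
        simp at h3
      simp only [ab]
      obtain ⟨a, ha⟩ : ∃ a, a = ι K (ab K j).1 := ⟨_, rfl⟩
      obtain ⟨b, hb⟩ : ∃ b, b = ι K (ab K j).2 := ⟨_, rfl⟩
      obtain ⟨t, ht⟩ : ∃ t, t = ι K X := ⟨_, rfl⟩
      obtain ⟨u, hu⟩ : ∃ u, u = ι K (1 + X) := ⟨_, rfl⟩
      have hs : es K = t * u ^ 3 := by rw [ht, hu, ← map_pow, ← map_mul]
      have hx2 : x * b = u * a := by rw [hu, ha, hb, ← map_mul]; exact hx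
      rw [hs] at hE
      rw [← hu] at h1
      have e3 : ι K (4 * (ab K j).2 * ((ab K j).1 ^ 3 + X * (ab K j).2 ^ 3)) =
          4 * b * (a ^ 3 + t * b ^ 3) := by
        rw [ha, hb, ht]
        simp only [map_mul, map_add, map_pow, map_ofNat]
      have e4 : ι K ((1 + X) * ((ab K j).1 ^ 4 - 8 * X * (ab K j).1 * (ab K j).2 ^ 3)) =
          u * (a ^ 4 - 8 * t * a * b ^ 3) := by
        rw [ha, hb, ht, hu]
        simp only [map_mul, map_add, map_sub, map_pow, map_ofNat]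
      rw [e3, e4]
      -- the duplication formula
      have k1 : Z * (4 * y ^ 2) = x ^ 4 - 8 * (t * u ^ 3) * x := by
        rw [hZ]
        linear_combination (l * (2 * y) + 3 * x ^ 2) * hl' - 8 * x * hE
      rw [hE] at k1
      have hu3 : u ^ 3 ≠ 0 := pow_ne_zero _ h1
      apply mul_left_cancel₀ hu3
      have k2 : u ^ 3 * a ^ 3 = x ^ 3 * b ^ 3 := by rw [← mul_pow, ← hx2, mul_pow]
      have k4 : u ^ 4 * a ^ 4 = x ^ 4 * b ^ 4 := by rw [← mul_pow, ← hx2, mul_pow]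
      linear_combination b ^ 4 * k1 + 4 * Z * b * k2 - k4 - 8 * t * u ^ 3 * b ^ 3 * hx2

theorem orb_P {G : Type*} [AddCommGroup G] (P : G) (n : ℕ) :
    orb ((2 : ℕ) • P) ((3 : ℕ) • P) P n =
      ((2 : ℕ) • P, (2 * n + 3 : ℕ) • P, ((n + 1) ^ 2 : ℕ) • P) := by
  induction n with
  | zero => simp [orb]
  | succ n ih =>
    simp only [orb, ih]
    rw [← add_nsmul, ← add_nsmul]
    have e1 : 2 * n + 3 + 2 = 2 * (n + 1) + 3 := by ring
    have e2 : (n + 1) ^ 2 + (2 * n + 3) = (n + 1 + 1) ^ 2 := by ring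
    rw [e1, e2]

theorem natDegree_aeval_le {σ : Type*} {P : MvPolynomial σ K} {e e₀ : ℕ}
    (hP : P.IsHomogeneous e) (w : σ → K[X]) (hw : ∀ i, (w i).natDegree ≤ e₀) :
    (MvPolynomial.aeval w P).natDegree ≤ e * e₀ := by
  rw [MvPolynomial.aeval_def, MvPolynomial.eval₂_eq]
  apply natDegree_sum_le_of_forall_le
  intro d hd
  refine (natDegree_mul_le).trans ?_
  have h1 : (algebraMap K K[X] (MvPolynomial.coeff d P)).natDegree = 0 := natDegree_C _
  rw [h1, zero_add]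
  refine (natDegree_prod_le _ _).trans ?_
  have h2 : ∑ i ∈ d.support, (w i ^ d i).natDegree ≤ ∑ i ∈ d.support, d i * e₀ := by
    apply Finset.sum_le_sum
    intro i _
    exact natDegree_pow_le.trans (Nat.mul_le_mul_left _ (hw i))
  refine h2.trans ?_
  rw [← Finset.sum_mul, hP.degree_eq_sum_deg_support hd]

/-- the degrees grow at least like the fourth power along `n = 2 ^ k - 1` -/
theorem lower [CharZero K] : ∃ e₀ : ℕ, ∀ {G : Fin 4 → MvPolynomial (Fin 4) K}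
    {H : MvPolynomial (Fin 4) K} {d : ℕ}, (∀ i, (G i).IsHomogeneous d) →
    (∀ i, Fpoly K i = H * G i) → ∀ k e : ℕ, RedDeg (iter G (2 ^ k - 1)) e →
    16 ^ k ≤ 3 * e₀ * e + 4 := by
  classical
  obtain ⟨P, hP⟩ := P_exists (K := K)
  have z1 := ev_P hP
  have z2 : Zp (evalRingHom (0 : K)) ((2 : ℕ) • P) (((2 : ℕ) : K) * 1) := by
    rw [two_nsmul]
    exact Zp.add_nat one_ne_zero z1 z1 one_ne_zero one_ne_zero (fun _ => rfl)
  have z3 : Zp (evalRingHom (0 : K)) ((3 : ℕ) • P) (((3 : ℕ) : K) * 1) := by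
    have h := Zp.add_nat one_ne_zero z2 z1 two_ne_zero one_ne_zero (fun h => by omega)
    have e : (3 : ℕ) • P = (2 : ℕ) • P + P := succ_nsmul P 2
    rw [e]
    exact h
  choose x₁ y₁ x₂ y₂ x₃ y₃ hT using orb_NT one_ne_zero z2 z3 z1
  obtain ⟨v0, hv0⟩ : ∃ v, v = vec (x₁ 0) (y₁ 0) (x₂ 0) (y₂ 0) (x₃ 0) (y₃ 0) := ⟨_, rfl⟩
  obtain ⟨q, hq⟩ := IsLocalization.exist_integer_multiples_of_finite (nonZeroDivisors K[X]) v0
  choose w hw using hq
  have hq0 : (q : K[X]) ≠ 0 := nonZeroDivisors.coe_ne_zero q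
  refine ⟨Finset.univ.sup fun i => (w i).natDegree, ?_⟩
  obtain ⟨e₀, he₀⟩ : ∃ e₀, e₀ = Finset.univ.sup fun i => (w i).natDegree := ⟨_, rfl⟩
  rw [← he₀]
  have hwd : ∀ i, (w i).natDegree ≤ e₀ := fun i => by
    rw [he₀]
    exact Finset.le_sup (f := fun i => (w i).natDegree) (Finset.mem_univ i)
  rintro G H d hG hF k e ⟨c, g, hc, hcg, hge, hgr⟩
  obtain ⟨n, hn⟩ : ∃ n, n = 2 ^ k - 1 := ⟨_, rfl⟩
  rw [← hn] at hcg
  have hn1 : n + 1 = 2 ^ k := by
    have : 1 ≤ 2 ^ k := Nat.one_le_two_pow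
    omega
  obtain ⟨ν, hν, hev⟩ := orbit_eval_red hT hG hF n hcg
  rw [← hv0] at hev
  have hqv : ∀ i, ι K (w i) = ι K q * v0 i := fun i => by
    rw [hw i, Algebra.smul_def]
  have hg : ∀ i, ι K (MvPolynomial.aeval w (g i)) =
      (ι K q) ^ e * (ν * vec (x₁ n) (y₁ n) (x₂ n) (y₂ n) (x₃ n) (y₃ n) i) := by
    intro i
    rw [← hev i, ← ff_scale (hge i)]
    have h1 : ι K (MvPolynomial.aeval w (g i)) =
        (IsScalarTower.toAlgHom K K[X] (F1 K)) (MvPolynomial.aeval w (g i)) := rfl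
    rw [h1, ← AlgHom.comp_apply, MvPolynomial.comp_aeval]
    congr 2
    funext j
    exact hqv j
  have hA := (hT n).hA
  have hC := (hT n).hC
  rw [orb_P] at hA hC
  simp only at hA hC
  rw [hn1, ← pow_mul, mul_comm k 2] at hC
  -- the two abscissas
  obtain ⟨-, X1, Y1, h1, hx1⟩ := dbl_P hP 1
  obtain ⟨-, X3, Y3, h3, hx3⟩ := dbl_P hP (2 * k)
  rw [pow_one] at h1
  obtain ⟨rfl, -⟩ := h1.uniq hA
  obtain ⟨rfl, -⟩ := h3.uniq hC
  have hg0 := hg 0
  have hg2 := hg 2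
  have w0 : vec (x₁ n) (y₁ n) (x₂ n) (y₂ n) (x₃ n) (y₃ n) 0 = x₃ n * (y₁ n - y₂ n) := by
    simp [vec]
  have w2 : vec (x₁ n) (y₁ n) (x₂ n) (y₂ n) (x₃ n) (y₃ n) 2 = x₁ n * (y₁ n - y₂ n) := by
    simp [vec]
  rw [w0] at hg0
  rw [w2] at hg2
  have hιq : ι K q ≠ 0 := fun h => hq0 (ι_inj (h.trans (map_zero _).symm))
  have hy12 : y₁ n - y₂ n ≠ 0 := sub_ne_zero.2 (hT n).y12
  have hg0ne : MvPolynomial.aeval w (g 0) ≠ 0 := by
    intro h
    rw [h, map_zero] at hg0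
    exact mul_ne_zero (pow_ne_zero _ hιq) (mul_ne_zero hν (mul_ne_zero (hT n).x3 hy12)) hg0.symm
  have hrel : MvPolynomial.aeval w (g 2) * (ab K (2 * k)).1 * (ab K 1).2 =
      MvPolynomial.aeval w (g 0) * (ab K 1).1 * (ab K (2 * k)).2 := by
    have hu : ι K (1 + X) ≠ 0 := by
      intro h
      have h2 := ι_inj (h.trans (map_zero _).symm)
      have h3 := congrArg (Polynomial.eval 0) h2
      simp at h3
    apply ι_inj
    apply mul_left_cancel₀ hu
    simp only [map_mul] at hx1 hx3 ⊢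
    rw [hg0, hg2]
    linear_combination (ι K q ^ e * ν * (y₁ n - y₂ n)) *
      (x₃ n * ι K (ab K (2 * k)).2 * hx1 - x₁ n * ι K (ab K 1).2 * hx3)
  have hdvd : (ab K (2 * k)).1 ∣ MvPolynomial.aeval w (g 0) * (ab K 1).1 := by
    apply (ab_coprime (2 * k)).dvd_of_dvd_mul_right
    rw [← hrel]
    exact ⟨MvPolynomial.aeval w (g 2) * (ab K 1).2, by ring⟩
  obtain ⟨a1, -, d1, -⟩ := ab_deg (K := K) 1
  obtain ⟨-, -, d2, -⟩ := ab_deg (K := K) (2 * k)
  have h5 := natDegree_le_of_dvd hdvd (mul_ne_zero hg0ne a1)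
  rw [natDegree_mul hg0ne a1] at h5
  have h6 := natDegree_aeval_le (hge 0) w hwd
  have h7 : (16 : ℕ) ^ k = 4 ^ (2 * k) := by rw [pow_mul]; norm_num
  rw [h7]
  have h8 : 3 * e₀ * e = 3 * (e * e₀) := by ring
  rw [h8]
  omega

end Pool.Agent.TH146
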