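import Mathlib
import Pool.Agent.TH146.Low
import Pool.Agent.TH146.Hts

/-! Degree growth of the self-map of `ℙ^3`. -/

set_option autoImplicit false
set_option linter.unusedSectionVars false

namespace Pool.Agent.TH146

open MvPolynomial Pool.Agent.Helper993.CS Filter Topology

universe u

variable {K : Type u} [Field K]

theorem algInd_iter3 {N : ℕ} (g : Fin (N+1) → MvPolynomial (Fin (N+1)) K)
    (hg : AlgebraicIndependent K g) (n : ℕ) : AlgebraicIndependent K (iter g n) := by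
  induction n with
  | zero =>
    have : iter g 0 = X := rfl
    rw [this]
    exact MvPolynomial.algebraicIndependent_X _ _
  | succ n ih =>
    rw [algebraicIndependent_iff_injective_aeval] at *
    have h : (aeval (iter g (n+1)) : MvPolynomial (Fin (N+1)) K →ₐ[K] _) =
        (aeval (iter g n)).comp (aeval g) := by
      apply MvPolynomial.algHom_ext
      intro i
      simp only [aeval_X, AlgHom.comp_apply]
      rfl
    rw [h]
    exact ih.comp hg

theorem subst_eq_iter3 {N : ℕ} (f : RatMap K N) (n : ℕ) : f.subst n = iter f.poly n := by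
  induction n with
  | zero => rfl
  | succ n ih => funext i; simp only [RatMap.subst, iter, ih]

theorem Fpoly_ne [CharZero K] : Fpoly K 0 ≠ 0 := by
  classical
  obtain ⟨A, B, C, hA, hB, hC⟩ := gen_exists (K := K)
  obtain ⟨zA, zB, zC⟩ := gen_Zp1 hA hB hC
  have hζ : (216 / 19 : K) ≠ 0 := by norm_num
  choose x₁ y₁ x₂ y₂ x₃ y₃ hT using orb_NT hζ zA zB zC
  obtain ⟨κ, hκ, hs⟩ := (hT 0).step (hT 1)
  intro h0
  have h1 := hs 0
  rw [← aeval_Fpoly (K := K), h0, map_zero] at h1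
  have h2 : vec (x₁ 1) (y₁ 1) (x₂ 1) (y₂ 1) (x₃ 1) (y₃ 1) 0 ≠ 0 := by
    simp only [vec, Matrix.cons_val_zero]
    exact mul_ne_zero (hT 1).x3 (sub_ne_zero.2 (hT 1).y12)
  exact mul_ne_zero hκ h2 h1.symm

/-- a reduced tuple obtained from an algebraically independent one is not constant -/
theorem redDeg_pos {N : ℕ} {P : Fin (N+2) → MvPolynomial (Fin (N+2)) K}
    (hP : AlgebraicIndependent K P) {d : ℕ} (h : RedDeg P d) : 0 < d := by
  rcases Nat.eq_zero_or_pos d with rfl | h0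
  · exfalso
    obtain ⟨H, G, hH, hG, hGd, hGr⟩ := h
    have hC : ∀ i, G i = MvPolynomial.C (coeff 0 (G i)) := fun i => by
      rw [← totalDegree_eq_zero_iff_eq_C, totalDegree_zero_iff_isHomogeneous]
      exact hGd i
    have h1 : aeval P (C (coeff 0 (G 1)) * X 0 - C (coeff 0 (G 0)) * X 1 :
        MvPolynomial (Fin (N+2)) K) = 0 := by
      rw [map_sub, map_mul, map_mul, aeval_X, aeval_X, aeval_C, aeval_C, algebraMap_eq,
        ← hC 0, ← hC 1, hG 0, hG 1]
      ring
    have h2 := (algebraicIndependent_iff.1 hP) _ h1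
    have h3 := congrArg (coeff (Finsupp.single 1 1)) h2
    rw [coeff_sub, coeff_C_mul, coeff_C_mul, coeff_X, coeff_zero, coeff_X,
      if_neg (by simp [Finsupp.single_left_inj]), if_pos rfl, mul_zero, mul_one, zero_sub,
      neg_eq_zero] at h3
    have h4 : G 0 = 0 := by rw [hC 0, h3, C_0]
    exact hP.ne_zero 0 (by rw [hG 0, h4, mul_zero])
  · exact h0

theorem tendsto_root (e : ℕ → ℕ) (C₀ m : ℕ) (h1 : ∀ n, 1 ≤ n → 0 < e n)
    (h2 : ∀ n, 1 ≤ n → e n ≤ C₀ * n ^ m) :
    Tendsto (fun n : ℕ => (e n : ℝ) ^ ((1:ℝ) / n)) atTop (𝓝 1) := by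
  have hC : (0:ℝ) < C₀ := by
    have := h1 1 le_rfl
    have h := h2 1 le_rfl
    rw [one_pow, mul_one] at h
    have : 0 < C₀ := by omega
    exact_mod_cast this
  have a1 : Tendsto (fun n : ℕ => (C₀ : ℝ) ^ ((1:ℝ) / n)) atTop (𝓝 1) := by
    have : Tendsto (fun n : ℕ => (1:ℝ) / n) atTop (𝓝 0) := tendsto_one_div_atTop_nhds_zero_nat
    have h2 := (Real.continuousAt_const_rpow hC.ne' (b := 0)).tendsto.comp this
    simpa [Function.comp_def] using h2
  have a2 : Tendsto (fun n : ℕ => ((n : ℝ) ^ ((1:ℝ) / n))) atTop (𝓝 1) :=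
    tendsto_rpow_div.comp tendsto_natCast_atTop_atTop
  have a3 := a1.mul (a2.pow m)
  rw [one_pow, mul_one] at a3
  refine tendsto_of_tendsto_of_tendsto_of_le_of_le' tendsto_const_nhds a3 ?_ ?_
  · filter_upwards [eventually_ge_atTop 1] with n hn
    apply Real.one_le_rpow
    · exact_mod_cast h1 n hn
    · positivity
  · filter_upwards [eventually_ge_atTop 1] with n hn
    have h4 : ((n : ℝ) ^ ((1:ℝ) / n)) ^ m = ((n : ℝ) ^ m) ^ ((1:ℝ) / n) := by
      rw [← Real.rpow_natCast, ← Real.rpow_natCast, ← Real.rpow_mul (by positivity),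
        ← Real.rpow_mul (by positivity), mul_comm]
    rw [h4, ← Real.mul_rpow (by positivity) (by positivity)]
    apply Real.rpow_le_rpow (by positivity) _ (by positivity)
    exact_mod_cast h2 n hn

/-- The self-map of `ℙ^3` induced by the unipotent automorphism of `E ^ 3`. -/
theorem quart (K : Type u) [Field K] [CharZero K] :
    ∃ f : RatMap K 3, f.Dominant ∧ ∃ e : ℕ → ℕ, f.IsDegreeSequence e ∧
      (∃ C₀ : ℕ, ∀ n, 1 ≤ n → 0 < e n ∧ e n ≤ C₀ * n ^ 16) ∧
      ∃ e₀ : ℕ, ∀ k, 16 ^ k ≤ 3 * e₀ * e (2 ^ k - 1) + 4 := by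
  obtain ⟨d, H, G, hH, hF, hG, hr⟩ := redDeg_exists 26 (Fpoly K) (Fpoly_hom K) Fpoly_ne
  have hdom := dominant hG hF
  have hne : ∀ n, iter G n 0 ≠ 0 := fun n => (algInd_iter3 G hdom n).ne_zero 0
  choose e he using fun n => redDeg_exists (d ^ n) (iter G n) (iter_hom d G hG n) (hne n)
  obtain ⟨C₀, hC₀⟩ := upper (K := K)
  obtain ⟨e₀, he₀⟩ := lower (K := K)
  refine ⟨⟨G, d, hG, hr⟩, hdom, e, ?_, ⟨C₀, fun n hn => ⟨?_, ?_⟩⟩, e₀, fun k => ?_⟩
  · intro n _
    obtain ⟨c, g, hc, hcg, hge, hgr⟩ := he n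
    refine ⟨⟨⟨g, e n, hge, hgr⟩, c, hc, fun i => ?_⟩, ?_⟩
    · rw [subst_eq_iter3]
      exact hcg i
    · rintro g' ⟨c', hc', hg'⟩
      apply redDeg_unique (iter G n) (hne n) _ _ _ (he n)
      refine ⟨c', g'.poly, hc', fun i => ?_, g'.homogeneous, g'.reduced⟩
      have := hg' i
      rw [subst_eq_iter3] at this
      exact this
  · exact redDeg_pos (N := 2) (algInd_iter3 G hdom n) (he n)
  · exact hC₀ hG hF n hn _ (he n)
  · exact he₀ hG hF k _ (he _)

end Pool.Agent.TH146
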